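import Pool.Agent.Q141.FR.Win2
import Pool.Agent.H13R3.WB.Lin

/-! Banded orders on `{0, …, N - 1}` as posets; probabilities as quotients of numbers of paths. -/

set_option autoImplicit false

open Finset
open scoped Classical

namespace Pool.Agent.Q141.FR

open Pool.Agent.H13R3.WB

/-- the ground set `{0, …, N - 1}`, without an order -/
def Pt (N : ℕ) : Type := Fin N

instance (N : ℕ) : Fintype (Pt N) := inferInstanceAs (Fintype (Fin N))

instance (N : ℕ) : DecidableEq (Pt N) := inferInstanceAs (DecidableEq (Fin N))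

/-- the number belonging to a point -/
def v {N : ℕ} (x : Pt N) : ℕ := Fin.val (n := N) x

lemma v_lt {N : ℕ} (x : Pt N) : v x < N := Fin.isLt (n := N) x

lemma v_inj {N : ℕ} {x y : Pt N} (h : v x = v y) : x = y := Fin.ext (n := N) h

/-- the point with a given number -/
def mk {N : ℕ} (i : ℕ) (h : i < N) : Pt N := (⟨i, h⟩ : Fin N)

@[simp] lemma v_mk {N : ℕ} (i : ℕ) (h : i < N) : v (mk i h) = i := rfl

lemma card_Pt (N : ℕ) : Fintype.card (Pt N) = N := Fintype.card_fin N

/-- the embedding in the natural numbers -/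
def emb (N : ℕ) : Pt N ↪ ℕ := ⟨v, fun _ _ h => v_inj h⟩

/-- the poset `{0, …, N - 1}` with the strict order `r` -/
@[reducible] def ord {b : ℕ} {r : ℕ → ℕ → Prop} (h : Ban b r) (N : ℕ) : PartialOrder (Pt N) where
  le x y := x = y ∨ r (v x) (v y)
  le_refl x := Or.inl rfl
  le_trans x y z h1 h2 := by
    rcases h1 with rfl | h1
    · exact h2
    · rcases h2 with rfl | h2
      · exact Or.inr h1
      · exact Or.inr (h.tr _ _ _ h1 h2)
  le_antisymm x y h1 h2 := by
    rcases h1 with rfl | h1
    · rfl
    · rcases h2 with rfl | h2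
      · rfl
      · have a1 := h.lt _ _ h1
        have a2 := h.lt _ _ h2
        omega

lemma D_eq_pc {N : ℕ} (A : Finset (Pt N) → Prop) [DecidablePred A] (A' : Finset ℕ → Prop)
    (hA : ∀ J, A J ↔ A' (J.map (emb N))) (m : ℕ) : ∀ J : Finset (Pt N), J.card + m = N →
      D A m J = pc A' m (J.map (emb N)) (range N) := by
  induction m with
  | zero =>
    intro J hJ
    rw [pc_zero, if_pos]
    · rfl
    · apply eq_of_subset_of_card_le
      · intro i hi
        rw [mem_map] at hi
        obtain ⟨p, _, rfl⟩ := hi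
        exact mem_range.2 (v_lt p)
      · rw [card_range, card_map]; omega
  | succ m ih =>
    intro J hJ
    rw [D, pc_succ]
    have e : (range N \ J.map (emb N)).filter (fun p => A' (insert p (J.map (emb N)))) =
        (univ.filter (fun p => p ∉ J ∧ A (insert p J))).map (emb N) := by
      ext i
      constructor
      · intro hi
        rw [mem_filter, mem_sdiff, mem_range] at hi
        obtain ⟨⟨h1, h2⟩, h3⟩ := hi
        refine mem_map.2 ⟨mk i h1, ?_, rfl⟩
        rw [mem_filter]
        refine ⟨mem_univ _, fun h => h2 (mem_map.2 ⟨_, h, rfl⟩), ?_⟩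
        rw [hA, map_insert]
        exact h3
      · intro hi
        obtain ⟨p, hp, rfl⟩ := mem_map.1 hi
        rw [mem_filter] at hp
        rw [mem_filter, mem_sdiff, mem_range]
        refine ⟨⟨v_lt p, fun h => ?_⟩, ?_⟩
        · rw [mem_map] at h
          obtain ⟨q, hq, hqp⟩ := h
          have : q = p := (emb N).injective hqp
          exact hp.2.1 (this ▸ hq)
        · have h := hp.2.2
          rw [hA, map_insert] at h
          exact h
    rw [e, sum_map]
    apply sum_congr rfl
    intro p hp
    rw [mem_filter] at hp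
    rw [ih (insert p J) (by rw [card_insert_of_notMem hp.2.1]; omega), map_insert]

theorem prob_pt {b : ℕ} {r : ℕ → ℕ → Prop} (h : Ban b r) (N : ℕ) {x y : Pt N} (hxy : x ≠ y) :
    @prob (Pt N) _ (ord h N) x y = pr r N (v x) (v y) := by
  let _ := ord h N
  have hlow : ∀ J : Finset (Pt N), IsLow J ↔ Low r (J.map (emb N)) := by
    intro J
    constructor
    · intro hJ j hj i hij
      rw [mem_map] at hj
      obtain ⟨p, hp, rfl⟩ := hj
      have hi : i < N := (h.lt _ _ hij).trans (v_lt p)
      exact mem_map.2 ⟨mk i hi, hJ p hp _ (Or.inr hij), rfl⟩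
    · intro hJ p hp q hq
      rcases hq with rfl | hq
      · exact hp
      · have := hJ (v p) (mem_map.2 ⟨p, hp, rfl⟩) (v q) hq
        rw [mem_map] at this
        obtain ⟨q', hq', e⟩ := this
        have : q' = q := v_inj e
        exact this ▸ hq'
  have hmem : ∀ (J : Finset (Pt N)) (z : Pt N), z ∈ J ↔ v z ∈ J.map (emb N) := by
    intro J z
    rw [mem_map]
    constructor
    · intro hz; exact ⟨z, hz, rfl⟩
    · rintro ⟨q, hq, e⟩
      have : q = z := v_inj e
      exact this ▸ hq
  unfold prob pr
  have hc := card_Pt N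
  have e1 : Nat.card {f : Pt N ≃ Fin (Fintype.card (Pt N)) // Monotone f ∧ f x < f y} =
      pc (LowXY r (v x) (v y)) N ∅ (range N) := by
    rw [Nat.card_eq_fintype_card, Fintype.card_subtype]
    have h1 := card_count (P := Pt N) (fun J => IsLow J ∧ (y ∈ J → x ∈ J)) rfl
      ⟨fun p hp => by simp at hp, fun hp => by simp at hp⟩
    have h2 : (univ.filter fun f : Pt N ≃ Fin (Fintype.card (Pt N)) => Monotone f ∧ f x < f y) =
        univ.filter (fun f : Pt N ≃ Fin (Fintype.card (Pt N)) => ∀ k ≤ Fintype.card (Pt N),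
          IsLow (Hs f k) ∧ (y ∈ Hs f k → x ∈ Hs f k)) := by
      ext f
      rw [mem_filter, mem_filter, mono_lt_iff f hxy]
    have h3 := D_eq_pc (N := N) (fun J => IsLow J ∧ (y ∈ J → x ∈ J)) (LowXY r (v x) (v y))
      (fun J => by
        unfold LowXY
        rw [← hlow, ← hmem, ← hmem]) (Fintype.card (Pt N)) ∅ (by rw [card_empty, hc]; omega)
    rw [h2, h1, h3, map_empty, hc]
  have e2 : Nat.card {f : Pt N ≃ Fin (Fintype.card (Pt N)) // Monotone f} =
      pc (Low r) N ∅ (range N) := by
    rw [Nat.card_eq_fintype_card, Fintype.card_subtype]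
    have h1 := card_count (P := Pt N) (fun J => IsLow J) rfl (fun p hp => by simp at hp)
    have h2 : (univ.filter fun f : Pt N ≃ Fin (Fintype.card (Pt N)) => Monotone f) =
        univ.filter (fun f : Pt N ≃ Fin (Fintype.card (Pt N)) => ∀ k ≤ Fintype.card (Pt N),
          IsLow (Hs f k)) := by
      ext f
      rw [mem_filter, mem_filter, mono_iff]
    have h3 := D_eq_pc (N := N) (fun J => IsLow J) (Low r) hlow (Fintype.card (Pt N)) ∅
      (by rw [card_empty, hc]; omega)
    rw [h2, h1, h3, map_empty, hc]
  rw [e1, e2]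

end Pool.Agent.Q141.FR
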