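import Mathlib

/-! Products of positive kernels with comparable entries forget the initial vector. -/

set_option autoImplicit false

open Finset

namespace Pool.Agent.Q141.FR

/-- one step -/
lemma contract_step {α : Type*} (X : Finset α) (K F F' : α → ℝ) {C m M G G' S S' : ℝ} (hC : 1 ≤ C)
    (hK : ∀ x ∈ X, 1 ≤ K x ∧ K x ≤ C) (h0 : ∀ x ∈ X, 0 ≤ F x)
    (hm : ∀ x ∈ X, m * F x ≤ F' x ∧ F' x ≤ M * F x)
    (hG : G = ∑ x ∈ X, F x * K x) (hG' : G' = ∑ x ∈ X, F' x * K x)
    (hS : S = ∑ x ∈ X, F x) (hS' : S' = ∑ x ∈ X, F' x) (hSp : 0 < S) :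
    (m + (S' / S - m) / C) * G ≤ G' ∧ G' ≤ (M - (M - S' / S) / C) * G ∧ m ≤ S' / S ∧
      S' / S ≤ M := by
  have hC0 : 0 < C := by linarith
  have h1 : m * S ≤ S' := by
    rw [hS, hS', mul_sum]
    exact sum_le_sum fun x hx => (hm x hx).1
  have h2 : S' ≤ M * S := by
    rw [hS, hS', mul_sum]
    exact sum_le_sum fun x hx => (hm x hx).2
  have h3 : m ≤ S' / S := by rw [le_div_iff₀ hSp]; exact h1
  have h4 : S' / S ≤ M := by rw [div_le_iff₀ hSp]; exact h2
  have h5 : G / C ≤ S := by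
    rw [div_le_iff₀ hC0, hG, hS, sum_mul]
    exact sum_le_sum fun x hx => mul_le_mul_of_nonneg_left (hK x hx).2 (h0 x hx)
  have h6 : S' - m * S ≤ G' - m * G := by
    rw [hS, hS', hG, hG', mul_sum, mul_sum, ← sum_sub_distrib, ← sum_sub_distrib]
    apply sum_le_sum
    intro x hx
    have a1 := (hm x hx).1
    have a2 := (hK x hx).1
    nlinarith
  have h7 : M * S - S' ≤ M * G - G' := by
    rw [hS, hS', hG, hG', mul_sum, mul_sum, ← sum_sub_distrib, ← sum_sub_distrib]
    apply sum_le_sum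
    intro x hx
    have a1 := (hm x hx).2
    have a2 := (hK x hx).1
    nlinarith
  have e1 : S' / S * S = S' := div_mul_cancel₀ _ hSp.ne'
  refine ⟨?_, ?_, h3, h4⟩
  · have h8 : (S' / S - m) * (G / C) ≤ (S' / S - m) * S :=
      mul_le_mul_of_nonneg_left h5 (by linarith)
    have e2 : (m + (S' / S - m) / C) * G = m * G + (S' / S - m) * (G / C) := by ring
    rw [e2]
    nlinarith
  · have h8 : (M - S' / S) * (G / C) ≤ (M - S' / S) * S :=
      mul_le_mul_of_nonneg_left h5 (by linarith)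
    have e2 : (M - (M - S' / S) / C) * G = M * G - (M - S' / S) * (G / C) := by ring
    rw [e2]
    nlinarith

theorem contract {α : Type*} (X : ℕ → Finset α) (K : ℕ → α → α → ℝ) (F F' : ℕ → α → ℝ) (C : ℝ)
    (hC : 1 ≤ C) (n : ℕ) (hne : ∀ j ≤ n, (X j).Nonempty)
    (hK : ∀ j < n, ∀ x ∈ X j, ∀ y ∈ X (j + 1), 1 ≤ K j x y ∧ K j x y ≤ C)
    (hF : ∀ j < n, ∀ y ∈ X (j + 1), F (j + 1) y = ∑ x ∈ X j, F j x * K j x y)
    (hF' : ∀ j < n, ∀ y ∈ X (j + 1), F' (j + 1) y = ∑ x ∈ X j, F' j x * K j x y)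
    (h0 : ∀ x ∈ X 0, 0 < F 0 x) (h0' : ∀ x ∈ X 0, 0 < F' 0 x) :
    ∀ j < n, ∃ m : ℝ, 0 < m ∧ ∀ x ∈ X (j + 1), m * F (j + 1) x ≤ F' (j + 1) x ∧
      F' (j + 1) x ≤ m * (1 + C ^ 2 * (1 - 1 / C) ^ j) * F (j + 1) x := by
  have hC0 : 0 < C := by linarith
  have hq : 0 ≤ 1 - 1 / C := by
    rw [sub_nonneg, div_le_one hC0]; exact hC
  have pos : ∀ (E : ℕ → α → ℝ), (∀ j < n, ∀ y ∈ X (j + 1), E (j + 1) y = ∑ x ∈ X j, E j x * K j x y)
      → (∀ x ∈ X 0, 0 < E 0 x) → ∀ j ≤ n, ∀ x ∈ X j, 0 < E j x := by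
    intro E hE hE0 j
    induction j with
    | zero => intro _; exact hE0
    | succ j ih =>
      intro hj y hy
      rw [hE j (by omega) y hy]
      apply sum_pos _ (hne j (by omega))
      intro x hx
      exact mul_pos (ih (by omega) x hx) (by have := (hK j (by omega) x hx y hy).1; linarith)
  have hFp := pos F hF h0
  have hFp' := pos F' hF' h0'
  have key : ∀ j < n, ∃ m M : ℝ, 0 < m ∧ M - m ≤ C ^ 2 * (1 - 1 / C) ^ j * m ∧
      ∀ x ∈ X (j + 1), m * F (j + 1) x ≤ F' (j + 1) x ∧ F' (j + 1) x ≤ M * F (j + 1) x := by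
    intro j
    induction j with
    | zero =>
      intro hn
      obtain ⟨S, hS⟩ : ∃ S, S = ∑ x ∈ X 0, F 0 x := ⟨_, rfl⟩
      obtain ⟨S', hS'⟩ : ∃ S', S' = ∑ x ∈ X 0, F' 0 x := ⟨_, rfl⟩
      have hSp : 0 < S := by rw [hS]; exact sum_pos h0 (hne 0 (by omega))
      have hSp' : 0 < S' := by rw [hS']; exact sum_pos h0' (hne 0 (by omega))
      refine ⟨S' / (C * S), C * S' / S, by positivity, ?_, ?_⟩
      · have e : C ^ 2 * (1 - 1 / C) ^ 0 * (S' / (C * S)) = C * S' / S := by
          field_simp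
        rw [e]
        have : 0 < S' / (C * S) := by positivity
        linarith
      · intro x hx
        have a1 : F 1 x ≤ C * S := by
          rw [hF 0 hn x hx, hS, mul_sum]
          apply sum_le_sum
          intro u hu
          have := (hK 0 hn u hu x hx).2
          have := h0 u hu
          nlinarith
        have a2 : S ≤ F 1 x := by
          rw [hF 0 hn x hx, hS]
          apply sum_le_sum
          intro u hu
          have := (hK 0 hn u hu x hx).1
          have := h0 u hu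
          nlinarith
        have a3 : F' 1 x ≤ C * S' := by
          rw [hF' 0 hn x hx, hS', mul_sum]
          apply sum_le_sum
          intro u hu
          have := (hK 0 hn u hu x hx).2
          have := h0' u hu
          nlinarith
        have a4 : S' ≤ F' 1 x := by
          rw [hF' 0 hn x hx, hS']
          apply sum_le_sum
          intro u hu
          have := (hK 0 hn u hu x hx).1
          have := h0' u hu
          nlinarith
        constructor
        · calc S' / (C * S) * F (0 + 1) x ≤ S' / (C * S) * (C * S) :=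
                mul_le_mul_of_nonneg_left a1 (by positivity)
            _ = S' := by field_simp
            _ ≤ _ := a4
        · calc F' (0 + 1) x ≤ C * S' := a3
            _ = C * S' / S * S := by field_simp
            _ ≤ _ := mul_le_mul_of_nonneg_left a2 (by positivity)
    | succ j ih =>
      intro hn
      obtain ⟨m, M, hm, hM, h⟩ := ih (by omega)
      obtain ⟨S, hS⟩ : ∃ S, S = ∑ x ∈ X (j + 1), F (j + 1) x := ⟨_, rfl⟩
      obtain ⟨S', hS'⟩ : ∃ S', S' = ∑ x ∈ X (j + 1), F' (j + 1) x := ⟨_, rfl⟩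
      have hSp : 0 < S := by
        rw [hS]; exact sum_pos (hFp (j + 1) (by omega)) (hne (j + 1) (by omega))
      have hx : ∀ y ∈ X (j + 1 + 1), (m + (S' / S - m) / C) * F (j + 1 + 1) y ≤ F' (j + 1 + 1) y ∧
          F' (j + 1 + 1) y ≤ (M - (M - S' / S) / C) * F (j + 1 + 1) y ∧ m ≤ S' / S ∧ S' / S ≤ M := by
        intro y hy
        exact contract_step (X (j + 1)) (fun x => K (j + 1) x y) (F (j + 1)) (F' (j + 1)) hC
          (fun x hx => hK (j + 1) hn x hx y hy) (fun x hx => (hFp (j + 1) (by omega) x hx).le) h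
          (hF (j + 1) hn y hy) (hF' (j + 1) hn y hy) hS hS' hSp
      obtain ⟨y₀, hy₀⟩ := hne (j + 1 + 1) (by omega)
      obtain ⟨-, -, b1, b2⟩ := hx y₀ hy₀
      have b3 : 0 ≤ (S' / S - m) / C := div_nonneg (by linarith) hC0.le
      refine ⟨m + (S' / S - m) / C, M - (M - S' / S) / C, by linarith, ?_,
        fun y hy => ⟨(hx y hy).1, (hx y hy).2.1⟩⟩
      have e1 : M - (M - S' / S) / C - (m + (S' / S - m) / C) = (M - m) * (1 - 1 / C) := by
        field_simp
        ring
      rw [e1]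
      calc (M - m) * (1 - 1 / C) ≤ (C ^ 2 * (1 - 1 / C) ^ j * m) * (1 - 1 / C) :=
            mul_le_mul_of_nonneg_right hM hq
        _ = C ^ 2 * (1 - 1 / C) ^ (j + 1) * m := by ring
        _ ≤ _ := mul_le_mul_of_nonneg_left (by linarith) (by positivity)
  intro j hj
  obtain ⟨m, M, hm, hM, h⟩ := key j hj
  refine ⟨m, hm, fun x hx => ⟨(h x hx).1, (h x hx).2.trans ?_⟩⟩
  apply mul_le_mul_of_nonneg_right _ (hFp (j + 1) (by omega) x hx).le
  nlinarith

end Pool.Agent.Q141.FR
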