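import Pool.Agent.Q141.FR.Loc

/-! The reduced order has almost the same balance constant. -/

set_option autoImplicit false

open Finset
open scoped Classical

namespace Pool.Agent.Q141.FR

open Pool.Agent.H13R3.WB Pool.Agent.H931R3.Bal

lemma ord_lt {b N : ℕ} {r : ℕ → ℕ → Prop} (hr : Ban b r) (x y : Pt N) :
    @LT.lt (Pt N) (ord hr N).toLT x y ↔ r (v x) (v y) := by
  let _ := ord hr N
  have e : ∀ x y : Pt N, x ≤ y ↔ (x = y ∨ r (v x) (v y)) := fun x y => Iff.rfl
  rw [lt_iff_le_not_ge, e, e]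
  constructor
  · rintro ⟨h1 | h1, h2⟩
    · exact absurd (Or.inl h1.symm) h2
    · exact h1
  · intro h
    refine ⟨Or.inr h, ?_⟩
    rintro (h1 | h1)
    · rw [h1] at h
      exact absurd (hr.lt _ _ h) (lt_irrefl _)
    · have a1 := hr.lt _ _ h
      have a2 := hr.lt _ _ h1
      omega

lemma v_injective (N : ℕ) : Function.Injective (v : Pt N → ℕ) := fun _ _ h => v_inj h

lemma top_inc {r : ℕ → ℕ → Prop} {n : ℕ} (h : Top r n) {t x : ℕ} (hi : Inc r t x) : t < n := by
  by_contra hc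
  rcases Nat.lt_or_ge x t with h1 | h1
  · exact hi.2.2 (h x t (by omega) h1)
  · have : t ≠ x := hi.1
    exact hi.2.1 (h t x (by omega) (by omega))

lemma bot_inc {r : ℕ → ℕ → Prop} {s : ℕ} (h : Bot r s) {t x : ℕ} (hi : Inc r t x) : s ≤ t := by
  by_contra hc
  rcases Nat.lt_or_ge t x with h1 | h1
  · exact hi.2.1 (h t x (by omega) h1)
  · have : t ≠ x := hi.1
    exact hi.2.2 (h x t (by omega) (by omega))

lemma pt_inc {b N : ℕ} {r : ℕ → ℕ → Prop} (hr : Ban b r) {x y : Pt N} :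
    Inc r (v x) (v y) ↔ Inc (fun x y => @LT.lt (Pt N) (ord hr N).toLT x y) x y :=
  inc_emb (v_injective N) fun x y => (ord_lt hr x y).symm

lemma pt_gd {b n N : ℕ} {r : ℕ → ℕ → Prop} (hr : Ban b r) (htop : Top r n) (hn : n ≤ N)
    {x y : Pt N} : Gd r (v x) (v y) ↔ Gd (fun x y => @LT.lt (Pt N) (ord hr N).toLT x y) x y := by
  refine gd_emb (v_injective N) (fun x y => (ord_lt hr x y).symm) ?_
  intro t x ht
  have := top_inc htop ht
  exact ⟨mk t (by omega), v_mk _ _⟩

section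

variable {P : Type} [Fintype P] [PartialOrder P] {m : ℕ}

omit [Fintype P] [PartialOrder P] in
lemma lab_inj (f : P ≃ Fin m) (S : ℕ) : Function.Injective (fun u : P => S + (f u : ℕ)) := by
  intro x y h
  have h' : S + (f x : ℕ) = S + (f y : ℕ) := h
  exact f.injective (Fin.ext (by omega))

omit [Fintype P] in
lemma lab_range (f : P ≃ Fin m) (S : ℕ) (t x : ℕ) (ht : Inc (rel f S) t x) :
    ∃ y : P, S + (f y : ℕ) = t := by
  have h1 := top_inc (top_rel f S) ht
  have h2 := bot_inc (bot_rel f S) ht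
  refine ⟨f.symm ⟨t - S, by omega⟩, ?_⟩
  simp
  omega

omit [Fintype P] in
lemma lab_inc {f : P ≃ Fin m} (hf : Monotone f) (S : ℕ) {x y : P} :
    Inc (rel f S) (S + (f x : ℕ)) (S + (f y : ℕ)) ↔ Inc (fun x y : P => x < y) x y :=
  inc_emb (g := fun u : P => S + (f u : ℕ)) (lab_inj f S) (fun _ _ => rel_P hf)

omit [Fintype P] in
lemma lab_gd {f : P ≃ Fin m} (hf : Monotone f) (S : ℕ) {x y : P} :
    Gd (rel f S) (S + (f x : ℕ)) (S + (f y : ℕ)) ↔ Gd (fun x y : P => x < y) x y :=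
  gd_emb (g := fun u : P => S + (f u : ℕ)) (lab_inj f S) (fun _ _ => rel_P hf)
    (fun t x ht => lab_range f S t _ ht)

/-- the length of the windows -/
def wl (b k : ℕ) : ℕ := 6 * b + 4 * b * (k + 1)

/-- the result of the reduction -/
structure Red (f : P ≃ Fin m) (b k : ℕ) (x₀ : P) where
  r : ℕ → ℕ → Prop
  n : ℕ
  w : ℕ
  ban : Ban b r
  top : Top r n
  wn : w + wl b k ≤ n
  size : n ≤ 2 * wl b k + 2 * 2 ^ (wl b k * b)
  wit : Agree (wl b k) (sh r w) (sh (rel f (wl b k + 3 * b)) ((f x₀ : ℕ) + wl b k))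
  win : ∀ a, ∃ a', Agree (wl b k) (sh r a) (sh (rel f (wl b k + 3 * b)) a')
  bal : ∀ N, n + wl b k ≤ N → @balance (Pt N) _ (ord ban N) ≤ (1 + err b k) ^ 4 * balance P

theorem exists_red [Nonempty P] {f : P ≃ Fin m} (hf : Monotone f) {K b : ℕ} (hb : b = 2 * K + 2)
    (hK : ∀ x : P, (univ.filter (fun y : P => ¬ x ≤ y ∧ ¬ y ≤ x)).card ≤ K) (k : ℕ) (x₀ : P) :
    Nonempty (Red f b k x₀) := by
  obtain ⟨L, hL⟩ : ∃ L, L = wl b k := ⟨_, rfl⟩
  have hL2 : L = 6 * b + 4 * b * (k + 1) := hL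
  obtain ⟨S, hS⟩ : ∃ S, S = L + 3 * b := ⟨_, rfl⟩
  have hr : Ban b (rel f S) := by rw [hb]; exact ban_rel hf hK S
  have hx₀ := (f x₀).2
  obtain ⟨r', n', w', k1, k2, k3, k4, k5, k6, k7, k8, k9⟩ := reduce b L L (S + m + L) (rel f S)
    ((f x₀ : ℕ) + L) hr (fun i j hi hij => bot_rel f S i j (by omega) hij)
    (fun i j hj hij => top_rel f S i j (by omega) hij) (by omega) (by omega)
  refine ⟨⟨r', n', w', k1, k3, by rw [← hL]; exact k5, by rw [← hL]; omega,
    by rw [← hL, ← hS]; exact k8, by rw [← hL, ← hS]; exact k9, ?_⟩⟩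
  rw [← hL]
  intro N hN
  have he := err_nonneg (b := b) (by omega) k
  have hE : 0 ≤ (1 + err b k) ^ 4 := by positivity
  have hB : 0 ≤ balance P := balance_nonneg
  let _ := ord k1 N
  apply balance_le_iff' (mul_nonneg hE hB)
  intro x y
  by_cases hxy : Inc r' (v x) (v y)
  · have hne : x ≠ y := fun h => hxy.1 (by rw [h])
    rw [prob_pt k1 N hne, prob_pt k1 N hne.symm]
    have b1 := bot_inc k2 hxy
    have b2 := top_inc k3 hxy
    have nr := inc_near k1 hxy
    obtain ⟨s, hs⟩ : ∃ s, s = b + 2 * b * (k + 1) := ⟨_, rfl⟩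
    have hLs : s + 2 * b ≤ L := by
      have : 4 * b * (k + 1) = 2 * b * (k + 1) + 2 * b * (k + 1) := by ring
      omega
    obtain ⟨a, ha⟩ : ∃ a, v x = a + (s + 2 * b) := ⟨v x - (s + 2 * b), by omega⟩
    obtain ⟨Y, hY⟩ : ∃ Y, v y = a + Y := ⟨v y - a, by omega⟩
    obtain ⟨a', ha'⟩ := k9 a
    rw [hL2] at ha'
    rw [ha, hY]
    have g1 : a + (6 * b + 4 * b * (k + 1)) ≤ N := by omega
    have g2 : a' + (6 * b + 4 * b * (k + 1)) ≤ S + (m + (a' + L)) := by omega
    have g3 : (s + 2 * b) + b ≤ b + 2 * b * (k + 1) + 4 * b := by omega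
    have g4 : b + 2 * b * (k + 1) + b ≤ Y := by omega
    have g5 : Y + b ≤ b + 2 * b * (k + 1) + 4 * b := by omega
    have g6 : b + 2 * b * (k + 1) + b ≤ s + 2 * b := by omega
    have c1 := compare hr k1 (N := N) (M := S + (m + (a' + L))) (X := s + 2 * b) (Y := Y) ha'
      g1 g2 g3 g4
    have c2 := compare hr k1 (N := N) (M := S + (m + (a' + L))) (X := Y) (Y := s + 2 * b) ha'
      g1 g2 g5 g6
    have g7 : v x ≠ v y := hxy.1
    have c3 := balance_ext hf hr (a' + L) (x := a' + (s + 2 * b)) (y := a' + Y) (by omega)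
      (by omega) (by omega)
    calc _ ≤ min ((1 + err b k) ^ 4 * pr (rel f S) (S + (m + (a' + L))) (a' + (s + 2 * b)) (a' + Y))
          ((1 + err b k) ^ 4 * pr (rel f S) (S + (m + (a' + L))) (a' + Y) (a' + (s + 2 * b))) :=
        min_le_min c1 c2
      _ = (1 + err b k) ^ 4 * min (pr (rel f S) (S + (m + (a' + L))) (a' + (s + 2 * b)) (a' + Y))
          (pr (rel f S) (S + (m + (a' + L))) (a' + Y) (a' + (s + 2 * b))) :=
        (mul_min_of_nonneg _ _ hE).symm
      _ ≤ _ := mul_le_mul_of_nonneg_left c3 hE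
  · have hc : x ≤ y ∨ y ≤ x := by
      unfold Inc at hxy
      by_cases h1 : x = y
      · exact Or.inl (Or.inl h1)
      · have h1' : v x ≠ v y := fun h => h1 (v_inj h)
        by_cases h2 : r' (v x) (v y)
        · exact Or.inl (Or.inr h2)
        · by_cases h3 : r' (v y) (v x)
          · exact Or.inr (Or.inr h3)
          · exact absurd ⟨h1', h2, h3⟩ hxy
    rcases hc with h | h
    · refine (min_le_right _ _).trans ?_
      rw [prob_eq_zero_of_le h]
      exact mul_nonneg hE hB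
    · refine (min_le_left _ _).trans ?_
      rw [prob_eq_zero_of_le h]
      exact mul_nonneg hE hB

end

end Pool.Agent.Q141.FR
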