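import Pool.Agent.Q141.FR.Path

/-! Cutting out a part between two equal windows. -/

set_option autoImplicit false

open Finset
open scoped Classical

namespace Pool.Agent.Q141.FR

/-- the two relations agree on `{0, …, L - 1}` -/
def Agree (L : ℕ) (r r' : ℕ → ℕ → Prop) : Prop := ∀ i j, i < L → j < L → (r i j ↔ r' i j)

lemma Agree.refl (L : ℕ) (r : ℕ → ℕ → Prop) : Agree L r r := fun _ _ _ _ => Iff.rfl

lemma Agree.trans {L : ℕ} {r r' r'' : ℕ → ℕ → Prop} (h : Agree L r r') (h' : Agree L r' r'') :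
    Agree L r r'' := fun i j hi hj => (h i j hi hj).trans (h' i j hi hj)

lemma Agree.symm {L : ℕ} {r r' : ℕ → ℕ → Prop} (h : Agree L r r') :
    Agree L r' r := fun i j hi hj => (h i j hi hj).symm

/-- the order in which the part from `p` to `p + s` is cut out -/
def cut (r : ℕ → ℕ → Prop) (p s L : ℕ) : ℕ → ℕ → Prop := fun i j =>
  (j < p + L ∧ r i j) ∨ (p ≤ i ∧ r (i + s) (j + s)) ∨ (i < p ∧ p + L ≤ j)

/-- all elements from `n` on are above all smaller ones -/
def Top (r : ℕ → ℕ → Prop) (n : ℕ) : Prop := ∀ i j, n ≤ j → i < j → r i j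

/-- all elements before `s` are below all larger ones -/
def Bot (r : ℕ → ℕ → Prop) (s : ℕ) : Prop := ∀ i j, i < s → i < j → r i j

section

variable {b : ℕ} {r : ℕ → ℕ → Prop} (hr : Ban b r) {p s L : ℕ}

include hr

omit hr in
lemma agree_add (hag : Agree L (sh r p) (sh r (p + s))) {i j : ℕ} (hi : p ≤ i) (hi2 : i < p + L)
    (hj : p ≤ j) (hj2 : j < p + L) : r i j ↔ r (i + s) (j + s) := by
  obtain ⟨i, rfl⟩ := Nat.exists_eq_add_of_le hi
  obtain ⟨j, rfl⟩ := Nat.exists_eq_add_of_le hj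
  have h := hag i j (by omega) (by omega)
  unfold sh at h
  rw [h]
  have e1 : p + s + i = p + i + s := by ring
  have e2 : p + s + j = p + j + s := by ring
  rw [e1, e2]

lemma cut_left (hag : Agree L (sh r p) (sh r (p + s))) {i j : ℕ} (hj : j < p + L) :
    cut r p s L i j ↔ r i j := by
  constructor
  · rintro (h | ⟨h1, h2⟩ | ⟨_, h2⟩)
    · exact h.2
    · have h3 := hr.lt _ _ h2
      exact (agree_add hag h1 (by omega) (by omega) hj).2 h2
    · omega
  · intro h
    exact Or.inl ⟨hj, h⟩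

lemma cut_right (hag : Agree L (sh r p) (sh r (p + s))) {i j : ℕ} (hi : p ≤ i) :
    cut r p s L i j ↔ r (i + s) (j + s) := by
  constructor
  · rintro (⟨h1, h2⟩ | ⟨_, h2⟩ | ⟨h1, _⟩)
    · have h3 := hr.lt _ _ h2
      exact (agree_add hag hi (by omega) (by omega) h1).1 h2
    · exact h2
    · omega
  · intro h
    exact Or.inr (Or.inl ⟨hi, h⟩)

omit hr in
lemma cut_far {i j : ℕ} (hi : i < p) (hj : p + L ≤ j) : cut r p s L i j :=
  Or.inr (Or.inr ⟨hi, hj⟩)

lemma ban_cut (hag : Agree L (sh r p) (sh r (p + s))) : Ban b (cut r p s L) where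
  one := hr.one
  lt := by
    rintro i j (⟨_, h2⟩ | ⟨_, h2⟩ | ⟨h1, h2⟩)
    · exact hr.lt _ _ h2
    · have := hr.lt _ _ h2
      omega
    · omega
  tr := by
    intro i j k h1 h2
    by_cases hk : k < p + L
    · rw [cut_left hr hag hk] at h2 ⊢
      have := hr.lt _ _ h2
      rw [cut_left hr hag (by omega)] at h1
      exact hr.tr _ _ _ h1 h2
    · by_cases hi : p ≤ i
      · rw [cut_right hr hag hi] at h1 ⊢
        have := hr.lt _ _ h1
        rw [cut_right hr hag (by omega)] at h2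
        exact hr.tr _ _ _ h1 h2
      · exact cut_far (by omega) (by omega)
  bd := by
    intro i j hij
    by_cases hj : j < p + L
    · rw [cut_left hr hag hj]; exact hr.bd _ _ hij
    · by_cases hi : p ≤ i
      · rw [cut_right hr hag hi]; exact hr.bd _ _ (by omega)
      · exact cut_far (by omega) (by omega)

lemma cut_win_left (hag : Agree L (sh r p) (sh r (p + s))) {a : ℕ} (ha : a ≤ p) :
    Agree L (sh (cut r p s L) a) (sh r a) := by
  intro i j _ hj
  exact cut_left hr hag (by omega)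

lemma cut_win_right (hag : Agree L (sh r p) (sh r (p + s))) {a : ℕ} (ha : p ≤ a) :
    Agree L (sh (cut r p s L) a) (sh r (a + s)) := by
  intro i j _ _
  unfold sh
  rw [cut_right hr hag (by omega)]
  have e1 : a + i + s = a + s + i := by ring
  have e2 : a + j + s = a + s + j := by ring
  rw [e1, e2]

lemma cut_bot (hag : Agree L (sh r p) (sh r (p + s))) {s₀ : ℕ} (hs : s₀ ≤ p) (h : Bot r s₀) :
    Bot (cut r p s L) s₀ := by
  intro i j hi hij
  by_cases hj : j < p + L
  · rw [cut_left hr hag hj]; exact h i j hi hij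
  · exact cut_far (by omega) (by omega)

lemma cut_top (hag : Agree L (sh r p) (sh r (p + s))) {n : ℕ} (hn : p + s + L ≤ n) (h : Top r n) :
    Top (cut r p s L) (n - s) := by
  intro i j hj hij
  by_cases hi : p ≤ i
  · rw [cut_right hr hag hi]; exact h _ _ (by omega) (by omega)
  · exact cut_far (by omega) (by omega)

/-- the window at `a` as a code -/
noncomputable def pat (r : ℕ → ℕ → Prop) (b L a : ℕ) : Fin L × Fin b → Bool :=
  fun q => decide (r (a + q.1) (a + q.1 + q.2))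

lemma agree_of_pat {a a' : ℕ} (h : pat r b L a = pat r b L a') : Agree L (sh r a) (sh r a') := by
  intro i j hi hj
  unfold sh
  rcases Nat.lt_or_ge i j with hij | hij
  · rcases Nat.lt_or_ge j (i + b) with h1 | h1
    · have h2 := congrFun h (⟨i, hi⟩, ⟨j - i, by omega⟩)
      unfold pat at h2
      rw [decide_eq_decide] at h2
      simp only at h2
      have e1 : a + i + (j - i) = a + j := by omega
      have e2 : a' + i + (j - i) = a' + j := by omega
      rw [e1, e2] at h2
      exact h2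
    · exact ⟨fun _ => hr.bd _ _ (by omega), fun _ => hr.bd _ _ (by omega)⟩
  · constructor <;> intro h1
    · have := hr.lt _ _ h1
      omega
    · have := hr.lt _ _ h1
      omega

lemma pigeon (lo hi : ℕ) (h : lo + 2 ^ (L * b) ≤ hi) : ∃ p q, lo ≤ p ∧ p < q ∧ q ≤ hi ∧
    Agree L (sh r p) (sh r q) := by
  have hc : Fintype.card (Fin L × Fin b → Bool) < (Icc lo hi).card := by
    rw [Fintype.card_fun, Fintype.card_bool, Fintype.card_prod, Fintype.card_fin, Fintype.card_fin,
      Nat.card_Icc]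
    omega
  obtain ⟨x, hx, y, hy, hne, he⟩ := exists_ne_map_eq_of_card_lt_of_maps_to
    (t := (univ : Finset (Fin L × Fin b → Bool))) (by rw [card_univ]; exact hc)
    (f := fun a => pat r b L a) (fun _ _ => mem_coe.2 (mem_univ _))
  rw [mem_Icc] at hx hy
  rcases Nat.lt_or_gt_of_ne hne with h1 | h1
  · exact ⟨x, y, hx.1, h1, hy.2, agree_of_pat hr he⟩
  · exact ⟨y, x, hy.1, h1, hx.2, agree_of_pat hr he.symm⟩

end

theorem reduce (b L s₀ : ℕ) : ∀ (n : ℕ) (r : ℕ → ℕ → Prop) (w : ℕ), Ban b r → Bot r s₀ → Top r n →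
    s₀ ≤ w → w + L ≤ n → ∃ (r' : ℕ → ℕ → Prop) (n' w' : ℕ), Ban b r' ∧ Bot r' s₀ ∧ Top r' n' ∧
      s₀ ≤ w' ∧ w' + L ≤ n' ∧ n' ≤ s₀ + L + 2 * 2 ^ (L * b) ∧ n' ≤ n ∧
      Agree L (sh r' w') (sh r w) ∧ ∀ a, ∃ a', Agree L (sh r' a) (sh r a') := by
  intro n
  induction n using Nat.strong_induction_on with
  | _ n ih =>
    intro r w hr hbot htop hw1 hw2
    by_cases hn : n ≤ s₀ + L + 2 * 2 ^ (L * b)
    · exact ⟨r, n, w, hr, hbot, htop, hw1, hw2, hn, le_rfl, Agree.refl _ _,
        fun a => ⟨a, Agree.refl _ _⟩⟩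
    · -- find the two equal windows
      have key : ∃ p q, s₀ ≤ p ∧ p < q ∧ q + L ≤ n ∧ Agree L (sh r p) (sh r q) ∧ (q ≤ w ∨ w ≤ p) := by
        by_cases h1 : s₀ + 2 ^ (L * b) ≤ w
        · obtain ⟨p, q, h2, h3, h4, h5⟩ := pigeon hr (L := L) s₀ w h1
          exact ⟨p, q, h2, h3, by omega, h5, Or.inl h4⟩
        · obtain ⟨p, q, h2, h3, h4, h5⟩ := pigeon hr (L := L) w (n - L) (by omega)
          exact ⟨p, q, by omega, h3, by omega, h5, Or.inr h2⟩
      obtain ⟨p, q, h1, h2, h3, h4, h5⟩ := key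
      obtain ⟨s, rfl⟩ := Nat.exists_eq_add_of_lt h2
      have h4' : Agree L (sh r p) (sh r (p + (s + 1))) := h4
      obtain ⟨w₁, hw3, hw4, hw5⟩ : ∃ w₁, s₀ ≤ w₁ ∧ w₁ + L ≤ n - (s + 1) ∧
          Agree L (sh (cut r p (s + 1) L) w₁) (sh r w) := by
        rcases h5 with h5 | h5
        · refine ⟨w - (s + 1), by omega, by omega, ?_⟩
          have := cut_win_right hr h4' (a := w - (s + 1)) (by omega)
          rwa [show w - (s + 1) + (s + 1) = w by omega] at this
        · exact ⟨w, hw1, by omega, cut_win_left hr h4' h5⟩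
      obtain ⟨r', n', w', k1, k2, k3, k4, k5, k6, k7, k8, k9⟩ := ih (n - (s + 1)) (by omega)
        (cut r p (s + 1) L) w₁ (ban_cut hr h4') (cut_bot hr h4' h1 hbot)
        (cut_top hr h4' (by omega) htop) hw3 hw4
      refine ⟨r', n', w', k1, k2, k3, k4, k5, k6, by omega, k8.trans hw5, fun a => ?_⟩
      obtain ⟨a₁, ha₁⟩ := k9 a
      rcases Nat.le_total a₁ p with h6 | h6
      · exact ⟨a₁, ha₁.trans (cut_win_left hr h4' h6)⟩
      · exact ⟨a₁ + (s + 1), ha₁.trans (cut_win_right hr h4' h6)⟩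

end Pool.Agent.Q141.FR
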