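import Pool.Agent.Q141.FR.Cut
import Pool.Agent.H931R3.Bal14

/-! Membership in the class `𝒟` is a local property. -/

set_option autoImplicit false

open Finset
open scoped Classical

namespace Pool.Agent.Q141.FR

open Pool.Agent.H13R3.WB Pool.Agent.H931R3.Bal

/-- incomparable for the strict order `r` -/
def Inc {α : Type} (r : α → α → Prop) (x y : α) : Prop := x ≠ y ∧ ¬ r x y ∧ ¬ r y x

lemma Inc.symm {α : Type} {r : α → α → Prop} {x y : α} (h : Inc r x y) : Inc r y x :=
  ⟨h.1.symm, h.2.2, h.2.1⟩

/-- the pair `x`, `y` lies in a component which consists of `v < w` and `u` -/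
def Gd {α : Type} (r : α → α → Prop) (x y : α) : Prop := ∃ u v w : α, r v w ∧ Inc r u v ∧
  Inc r u w ∧ ((x = u ∧ (y = v ∨ y = w)) ∨ (y = u ∧ (x = v ∨ x = w))) ∧
  ∀ t, (Inc r t u → t = v ∨ t = w) ∧ (Inc r t v → t = u) ∧ (Inc r t w → t = u)

section

variable {α β : Type} {s : α → α → Prop} {r : β → β → Prop} {g : α → β}

lemma inc_emb (gi : Function.Injective g) (hg : ∀ x y, r (g x) (g y) ↔ s x y) {x y : α} :
    Inc r (g x) (g y) ↔ Inc s x y := by
  unfold Inc
  rw [hg, hg, gi.ne_iff]

lemma gd_emb (gi : Function.Injective g) (hg : ∀ x y, r (g x) (g y) ↔ s x y)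
    (ho : ∀ t x, Inc r t (g x) → ∃ y, g y = t) {x y : α} : Gd r (g x) (g y) ↔ Gd s x y := by
  constructor
  · rintro ⟨u, v, w, h1, h2, h3, h4, h5⟩
    have key : (∃ u', g u' = u) ∧ (∃ v', g v' = v) ∧ ∃ w', g w' = w := by
      have hu : (∃ u', g u' = u) := by
        rcases h4 with ⟨e, _⟩ | ⟨e, _⟩
        · exact ⟨_, e⟩
        · exact ⟨_, e⟩
      obtain ⟨u', rfl⟩ := hu
      exact ⟨⟨_, rfl⟩, ho _ _ h2.symm, ho _ _ h3.symm⟩
    obtain ⟨⟨u', rfl⟩, ⟨v', rfl⟩, ⟨w', rfl⟩⟩ := key
    rw [hg] at h1
    rw [inc_emb gi hg] at h2 h3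
    refine ⟨u', v', w', h1, h2, h3, ?_, fun t => ?_⟩
    · simpa only [gi.eq_iff] using h4
    · have := h5 (g t)
      simpa only [gi.eq_iff, inc_emb gi hg] using this
  · rintro ⟨u, v, w, h1, h2, h3, h4, h5⟩
    refine ⟨g u, g v, g w, (hg _ _).2 h1, (inc_emb gi hg).2 h2, (inc_emb gi hg).2 h3, ?_,
      fun t => ⟨fun ht => ?_, fun ht => ?_, fun ht => ?_⟩⟩
    · simpa only [gi.eq_iff] using h4
    · obtain ⟨t, rfl⟩ := ho _ _ ht
      have := (h5 t).1 ((inc_emb gi hg).1 ht)
      simpa only [gi.eq_iff] using this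
    · obtain ⟨t, rfl⟩ := ho _ _ ht
      have := (h5 t).2.1 ((inc_emb gi hg).1 ht)
      simpa only [gi.eq_iff] using this
    · obtain ⟨t, rfl⟩ := ho _ _ ht
      have := (h5 t).2.2 ((inc_emb gi hg).1 ht)
      simpa only [gi.eq_iff] using this

end

/-- all incomparable pairs lie in such components -/
def AllGd {α : Type} (r : α → α → Prop) : Prop := ∀ x y, Inc r x y → Gd r x y

lemma allGd_emb {α β : Type} {s : α → α → Prop} {r : β → β → Prop} {g : α → β}
    (gi : Function.Injective g) (hg : ∀ x y, r (g x) (g y) ↔ s x y)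
    (ho : ∀ t x, Inc r t (g x) → ∃ y, g y = t) (h : AllGd r) : AllGd s := by
  intro x y hxy
  exact (gd_emb gi hg ho).1 (h _ _ ((inc_emb gi hg).2 hxy))

lemma lt_iff_iso {P Q : Type} [PartialOrder P] [PartialOrder Q] (e : P ≃o Q) (x y : P) :
    (e x < e y) ↔ x < y := e.lt_iff_lt

theorem InD.allGd {P : Type} [PartialOrder P] (h : InD P) : AllGd (fun x y : P => x < y) := by
  induction h with
  | one P e =>
    obtain ⟨e⟩ := e
    intro x y hxy
    exact absurd (e.injective (Subsingleton.elim (e x) (e y))) hxy.1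
  | three P e =>
    obtain ⟨e⟩ := e
    have key : AllGd (fun x y : Fin 2 ⊕ Fin 1 => x < y) := by
      have hu : ∀ z : Fin 2 ⊕ Fin 1, z = Sum.inl 0 ∨ z = Sum.inl 1 ∨ z = Sum.inr 0 := by
        rintro (z | z)
        · have : z = 0 ∨ z = 1 := by omega
          rcases this with h | h <;> rw [h] <;> simp
        · rw [Subsingleton.elim z 0]; simp
      have hvw : (Sum.inl 0 : Fin 2 ⊕ Fin 1) < Sum.inl 1 := by
        rw [Sum.inl_lt_inl_iff]; decide
      have i1 : Inc (fun x y : Fin 2 ⊕ Fin 1 => x < y) (Sum.inr 0) (Sum.inl 0) :=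
        ⟨by simp, Sum.not_inr_lt_inl, Sum.not_inl_lt_inr⟩
      have i2 : Inc (fun x y : Fin 2 ⊕ Fin 1 => x < y) (Sum.inr 0) (Sum.inl 1) :=
        ⟨by simp, Sum.not_inr_lt_inl, Sum.not_inl_lt_inr⟩
      have hall : ∀ t : Fin 2 ⊕ Fin 1,
          (Inc (fun x y : Fin 2 ⊕ Fin 1 => x < y) t (Sum.inr 0) →
            t = Sum.inl 0 ∨ t = Sum.inl 1) ∧
          (Inc (fun x y : Fin 2 ⊕ Fin 1 => x < y) t (Sum.inl 0) → t = Sum.inr 0) ∧
          (Inc (fun x y : Fin 2 ⊕ Fin 1 => x < y) t (Sum.inl 1) → t = Sum.inr 0) := by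
        intro t
        rcases hu t with rfl | rfl | rfl
        · refine ⟨fun _ => Or.inl rfl, fun h => absurd rfl h.1, fun h => absurd hvw h.2.1⟩
        · refine ⟨fun _ => Or.inr rfl, fun h => absurd hvw h.2.2, fun h => absurd rfl h.1⟩
        · exact ⟨fun h => absurd rfl h.1, fun _ => rfl, fun _ => rfl⟩
      intro x y hxy
      refine ⟨Sum.inr 0, Sum.inl 0, Sum.inl 1, hvw, i1, i2, ?_, hall⟩
      rcases hu x with rfl | rfl | rfl
      · have := (hall y).2.1 hxy.symm
        subst this
        exact Or.inr ⟨rfl, Or.inl rfl⟩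
      · have := (hall y).2.2 hxy.symm
        subst this
        exact Or.inr ⟨rfl, Or.inr rfl⟩
      · have := (hall y).1 hxy.symm
        exact Or.inl ⟨rfl, this⟩
    exact allGd_emb (g := e) e.injective (fun x y => e.lt_iff_lt)
      (fun t x _ => ⟨e.symm t, by simp⟩) key
  | sum P Q R _ _ e ihP ihQ =>
    obtain ⟨e⟩ := e
    have key : AllGd (fun x y : P ⊕ₗ Q => x < y) := by
      have eP : ∀ (x y : P), (toLex (Sum.inl x) : P ⊕ₗ Q) < toLex (Sum.inl y) ↔ x < y :=
        fun x y => Sum.Lex.inl_lt_inl_iff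
      have eQ : ∀ (x y : Q), (toLex (Sum.inr x) : P ⊕ₗ Q) < toLex (Sum.inr y) ↔ x < y :=
        fun x y => Sum.Lex.inr_lt_inr_iff
      have eS : ∀ (x : P) (y : Q), (toLex (Sum.inl x) : P ⊕ₗ Q) < toLex (Sum.inr y) :=
        fun x y => Sum.Lex.inl_lt_inr x y
      have iP : Function.Injective (fun x : P => (toLex (Sum.inl x) : P ⊕ₗ Q)) :=
        fun x y h => Sum.inl_injective (toLex.injective h)
      have iQ : Function.Injective (fun x : Q => (toLex (Sum.inr x) : P ⊕ₗ Q)) :=
        fun x y h => Sum.inr_injective (toLex.injective h)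
      intro x y hxy
      rcases x with x | x <;> rcases y with y | y
      · refine (gd_emb (s := fun x y : P => x < y) (g := fun x : P => (toLex (Sum.inl x) : P ⊕ₗ Q))
          iP eP ?_).2 (ihP x y ((inc_emb iP eP).1 hxy))
        rintro (t | t) x ht
        · exact ⟨t, rfl⟩
        · exact absurd (eS x t) ht.2.2
      · exact absurd (eS x y) hxy.2.1
      · exact absurd (eS y x) hxy.2.2
      · refine (gd_emb (s := fun x y : Q => x < y) (g := fun x : Q => (toLex (Sum.inr x) : P ⊕ₗ Q))
          iQ eQ ?_).2 (ihQ x y ((inc_emb iQ eQ).1 hxy))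
        rintro (t | t) x ht
        · exact absurd (eS t x) ht.2.1
        · exact ⟨t, rfl⟩
    exact allGd_emb (g := e) e.injective (fun x y => e.lt_iff_lt)
      (fun t x _ => ⟨e.symm t, by simp⟩) key

lemma sum_split {P : Type} [PartialOrder P] {M : Set P} (h : ∀ x ∈ M, ∀ y ∉ M, x < y) :
    Nonempty (P ≃o (M ⊕ₗ (Mᶜ : Set P))) := by
  let g : (M ⊕ₗ (Mᶜ : Set P)) → P := fun z =>
    Sum.elim (fun x : M => (x : P)) (fun y : (Mᶜ : Set P) => (y : P)) (ofLex z)
  have key : ∀ x y, g x ≤ g y ↔ x ≤ y := by
    intro x y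
    rcases x with x | x <;> rcases y with y | y
    · change (x : P) ≤ (y : P) ↔ _
      exact (Iff.trans Subtype.coe_le_coe Sum.Lex.inl_le_inl_iff.symm)
    · exact ⟨fun _ => Sum.Lex.sep _ _, fun _ => (h x x.2 y y.2).le⟩
    · constructor
      · intro h1
        exact absurd (lt_of_lt_of_le (h y y.2 x x.2) h1) (lt_irrefl _)
      · intro h1
        exact absurd h1 Sum.Lex.not_inr_le_inl
    · change (x : P) ≤ (y : P) ↔ _
      exact (Iff.trans Subtype.coe_le_coe Sum.Lex.inr_le_inr_iff.symm)
  have surj : Function.Surjective g := by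
    intro y
    by_cases hy : y ∈ M
    · exact ⟨toLex (Sum.inl ⟨y, hy⟩), rfl⟩
    · exact ⟨toLex (Sum.inr ⟨y, hy⟩), rfl⟩
  exact ⟨(RelIso.ofSurjective (OrderEmbedding.ofMapLEIff g key) surj).symm⟩

lemma InD_of_split {P : Type} [PartialOrder P] {M : Set P} (h : ∀ x ∈ M, ∀ y ∉ M, x < y)
    (h1 : InD M) (h2 : (Mᶜ : Set P).Nonempty → InD (Mᶜ : Set P)) : InD P := by
  by_cases hM : (Mᶜ : Set P).Nonempty
  · exact InD.sum _ _ _ h1 (h2 hM) (sum_split h)
  · rw [Set.not_nonempty_iff_eq_empty, Set.compl_empty_iff] at hM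
    subst hM
    exact Pool.Agent.H931R3.Bal.InD.iso h1 OrderIso.Set.univ

theorem InD_of_allGd : ∀ (n : ℕ) (P : Type) [Fintype P] [PartialOrder P] [Nonempty P],
    Fintype.card P = n → AllGd (fun x y : P => x < y) → InD P := by
  intro n
  induction n using Nat.strong_induction_on with
  | _ n ih =>
    intro P _ _ _ hc hG
    -- it is enough to find a suitable lower part
    have main : ∀ M : Set P, M.Nonempty → (∀ x ∈ M, ∀ y ∉ M, x < y) → InD M → InD P := by
      intro M hM1 hM2 hM3
      apply InD_of_split hM2 hM3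
      intro hne
      have : Nonempty (Mᶜ : Set P) := hne.to_subtype
      have hcard : Fintype.card (Mᶜ : Set P) < n := by
        rw [← hc]
        apply Fintype.card_lt_of_injective_of_notMem (Subtype.val : (Mᶜ : Set P) → P)
          Subtype.val_injective (b := hM1.some)
        rintro ⟨y, hy⟩
        exact y.2 (hy ▸ hM1.some_mem)
      apply ih _ hcard (Mᶜ : Set P) rfl
      refine allGd_emb (r := fun x y : P => x < y) (g := (Subtype.val : (Mᶜ : Set P) → P))
        Subtype.val_injective (fun x y => Subtype.coe_lt_coe) ?_ hG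
      intro t x ht
      have : t ∉ M := fun h => ht.2.1 (hM2 t h x x.2)
      exact ⟨⟨t, this⟩, rfl⟩
    obtain ⟨x, hx⟩ : ∃ x : P, ∀ y, ¬ y < x := by
      obtain ⟨x, hx⟩ := Finset.exists_minimal (s := (univ : Finset P)) univ_nonempty
      exact ⟨x, fun y hy => absurd (hx.2 (mem_univ y) hy.le) (not_le_of_gt hy)⟩
    by_cases h1 : ∃ y, Inc (fun x y : P => x < y) x y
    · obtain ⟨y, hy⟩ := h1
      obtain ⟨u, v, w, k1, k2, k3, k4, k5⟩ := hG x y hy
      have hxM : x = u ∨ x = v ∨ x = w := by tauto
      -- comparable elements are above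
      have cmp : ∀ t, t ≠ u → t ≠ v → t ≠ w → u < t ∧ v < t ∧ w < t := by
        intro t t1 t2 t3
        have c1 : t < u ∨ u < t := by
          by_contra hcon
          push Not at hcon
          rcases (k5 t).1 ⟨t1, hcon.1, hcon.2⟩ with h | h
          · exact t2 h
          · exact t3 h
        have c2 : t < v ∨ v < t := by
          by_contra hcon
          push Not at hcon
          exact t1 ((k5 t).2.1 ⟨t2, hcon.1, hcon.2⟩)
        have c3 : t < w ∨ w < t := by
          by_contra hcon
          push Not at hcon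
          exact t1 ((k5 t).2.2 ⟨t3, hcon.1, hcon.2⟩)
        have n1 : ¬ t < x := hx t
        rcases c1 with c1 | c1
        · -- t below u
          have d2 : t < v := by
            rcases c2 with c2 | c2
            · exact c2
            · exact absurd (c2.trans c1) k2.2.2
          have d3 : t < w := by
            rcases c3 with c3 | c3
            · exact c3
            · exact absurd (c3.trans c1) k3.2.2
          exfalso
          rcases hxM with e | e | e <;> subst e
          · exact n1 c1
          · exact n1 d2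
          · exact n1 d3
        · refine ⟨c1, ?_, ?_⟩
          · rcases c2 with c2 | c2
            · exact absurd (c1.trans c2) k2.2.1
            · exact c2
          · rcases c3 with c3 | c3
            · exact absurd (c1.trans c3) k3.2.1
            · exact c3
      apply main ({u, v, w} : Set P) ⟨u, by simp⟩
      · intro a ha t ht
        simp only [Set.mem_insert_iff, Set.mem_singleton_iff, not_or] at ha ht
        obtain ⟨c1, c2, c3⟩ := cmp t ht.1 ht.2.1 ht.2.2
        rcases ha with rfl | rfl | rfl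
        · exact c1
        · exact c2
        · exact c3
      · -- the part is isomorphic to the poset with three elements
        apply InD.three
        let g : Fin 2 ⊕ Fin 1 → ({u, v, w} : Set P) := fun z =>
          Sum.elim (fun i : Fin 2 => if i = 0 then ⟨v, by simp⟩ else ⟨w, by simp⟩)
            (fun _ => ⟨u, by simp⟩) z
        have g0 : (g (Sum.inl 0) : P) = v := rfl
        have g1 : (g (Sum.inl 1) : P) = w := rfl
        have g2 : ∀ z, (g (Sum.inr z) : P) = u := fun z => rfl
        have key : ∀ x y, g x ≤ g y ↔ x ≤ y := by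
          have nuv : ¬ u ≤ v := fun h => k2.2.1 (lt_of_le_of_ne h k2.1)
          have nvu : ¬ v ≤ u := fun h => k2.2.2 (lt_of_le_of_ne h k2.1.symm)
          have nuw : ¬ u ≤ w := fun h => k3.2.1 (lt_of_le_of_ne h k3.1)
          have nwu : ¬ w ≤ u := fun h => k3.2.2 (lt_of_le_of_ne h k3.1.symm)
          intro x y
          rw [← Subtype.coe_le_coe]
          rcases x with x | x <;> rcases y with y | y
          · rw [Sum.inl_le_inl_iff]
            have hx' : x = 0 ∨ x = 1 := by omega
            have hy' : y = 0 ∨ y = 1 := by omega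
            rcases hx' with rfl | rfl <;> rcases hy' with rfl | rfl
            · simp
            · rw [g0, g1]; simp [k1.le]
            · rw [g0, g1]
              simp only [not_le_of_gt k1, false_iff]
              decide
            · simp
          · have hx' : x = 0 ∨ x = 1 := by omega
            refine ⟨fun h => ?_, fun h => absurd h Sum.not_inl_le_inr⟩
            rw [g2] at h
            rcases hx' with rfl | rfl
            · rw [g0] at h; exact absurd h nvu
            · rw [g1] at h; exact absurd h nwu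
          · have hy' : y = 0 ∨ y = 1 := by omega
            refine ⟨fun h => ?_, fun h => absurd h Sum.not_inr_le_inl⟩
            rw [g2] at h
            rcases hy' with rfl | rfl
            · rw [g0] at h; exact absurd h nuv
            · rw [g1] at h; exact absurd h nuw
          · rw [g2, g2, Sum.inr_le_inr_iff]
            simp [Subsingleton.elim x y]
        have surj : Function.Surjective g := by
          rintro ⟨z, hz⟩
          simp only [Set.mem_insert_iff, Set.mem_singleton_iff] at hz
          rcases hz with rfl | rfl | rfl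
          · exact ⟨Sum.inr 0, Subtype.ext (g2 0)⟩
          · exact ⟨Sum.inl 0, Subtype.ext g0⟩
          · exact ⟨Sum.inl 1, Subtype.ext g1⟩
        exact ⟨(RelIso.ofSurjective (OrderEmbedding.ofMapLEIff g key) surj).symm⟩
    · apply main ({x} : Set P) ⟨x, rfl⟩
      · intro a ha t ht
        have ha' : a = x := ha
        subst ha'
        have ht' : t ≠ a := ht
        by_contra hcon
        apply h1
        exact ⟨t, ht'.symm, hcon, hx t⟩
      · apply InD.one
        have : Unique ({x} : Set P) := Set.uniqueSingleton x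
        exact ⟨OrderIso.ofUnique _ _⟩

end Pool.Agent.Q141.FR
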