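import Pool.Agent.Q141.FR.Cnt
import Pool.Agent.Q141.FR.Cut
import Pool.Agent.H931R3.Bal14

/-! A finite poset in which every element is incomparable to few others as a banded order. -/

set_option autoImplicit false

open Finset
open scoped Classical

namespace Pool.Agent.Q141.FR

open Pool.Agent.H13R3.WB Pool.Agent.H931R3.Bal

lemma lex_le {P Q : Type} [Fintype P] [PartialOrder P] [Fintype Q] [PartialOrder Q]
    {c : ℝ} (hc : 0 ≤ c) (hP : balance P ≤ c) (hQ : balance Q ≤ c) :
    ∀ x y : P ⊕ₗ Q, min (prob (P ⊕ₗ Q) x y) (prob (P ⊕ₗ Q) y x) ≤ c := by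
  intro x y
  have e1 : ∀ a b : P, prob P a b = prob (P ⊕ₗ Q) (toLex (Sum.inl a)) (toLex (Sum.inl b)) :=
    fun a b => by
      rw [prob_eq rfl, prob_eq (n := Fintype.card P + Fintype.card Q) card_lexS,
        pr_lex_inl rfl rfl]
  have e2 : ∀ a b : Q, prob Q a b = prob (P ⊕ₗ Q) (toLex (Sum.inr a)) (toLex (Sum.inr b)) :=
    fun a b => by
      rw [prob_eq rfl, prob_eq (n := Fintype.card P + Fintype.card Q) card_lexS,
        pr_lex_inr rfl rfl]
  rcases x with a | a <;> rcases y with b | b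
  · change min (prob (P ⊕ₗ Q) (toLex (Sum.inl a)) (toLex (Sum.inl b)))
      (prob (P ⊕ₗ Q) (toLex (Sum.inl b)) (toLex (Sum.inl a))) ≤ c
    rw [← e1, ← e1]
    exact (le_balance a b).trans hP
  · change min (prob (P ⊕ₗ Q) (toLex (Sum.inl a)) (toLex (Sum.inr b)))
      (prob (P ⊕ₗ Q) (toLex (Sum.inr b)) (toLex (Sum.inl a))) ≤ c
    refine (min_le_right _ _).trans ?_
    rw [prob_eq_zero_of_le (Sum.Lex.sep a b)]
    exact hc
  · change min (prob (P ⊕ₗ Q) (toLex (Sum.inr a)) (toLex (Sum.inl b)))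
      (prob (P ⊕ₗ Q) (toLex (Sum.inl b)) (toLex (Sum.inr a))) ≤ c
    refine (min_le_left _ _).trans ?_
    rw [prob_eq_zero_of_le (Sum.Lex.sep b a)]
    exact hc
  · change min (prob (P ⊕ₗ Q) (toLex (Sum.inr a)) (toLex (Sum.inr b)))
      (prob (P ⊕ₗ Q) (toLex (Sum.inr b)) (toLex (Sum.inr a))) ≤ c
    rw [← e2, ← e2]
    exact (le_balance a b).trans hQ

lemma balance_le_iff' {P : Type} [Fintype P] [PartialOrder P] {c : ℝ} (hc : 0 ≤ c)
    (h : ∀ x y : P, min (prob P x y) (prob P y x) ≤ c) : balance P ≤ c := by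
  unfold balance
  rcases isEmpty_or_nonempty (P × P) with h1 | h1
  · rw [Real.iSup_of_isEmpty]; exact hc
  · exact ciSup_le fun p => h p.1 p.2

section

variable {P : Type} [Fintype P] [PartialOrder P] {m : ℕ}

/-- the elements `s₀, …, s₀ + m - 1` are ordered as `P`, all others are comparable to everything -/
def rel (f : P ≃ Fin m) (s₀ : ℕ) : ℕ → ℕ → Prop := fun i j =>
  i < j ∧ (i < s₀ ∨ s₀ + m ≤ j ∨ ∃ u w : P, s₀ + (f u : ℕ) = i ∧ s₀ + (f w : ℕ) = j ∧ u < w)

lemma lt_of_thin {f : P ≃ Fin m} (hf : Monotone f) {K : ℕ}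
    (hK : ∀ x : P, (univ.filter (fun y : P => ¬ x ≤ y ∧ ¬ y ≤ x)).card ≤ K) {u w : P}
    (h : (f u : ℕ) + (2 * K + 2) ≤ f w) : u < w := by
  by_contra hc
  obtain ⟨S, hS⟩ : ∃ S, S = (Ioo (f u) (f w)).map f.symm.toEmbedding := ⟨_, rfl⟩
  have h1 : S.card = (f w : ℕ) - f u - 1 := by rw [hS, card_map, Fin.card_Ioo]
  have h2 : S ⊆ (univ.filter (fun y : P => ¬ u ≤ y ∧ ¬ y ≤ u)) ∪
      (univ.filter (fun y : P => ¬ w ≤ y ∧ ¬ y ≤ w)) := by
    intro z hz
    rw [hS, mem_map] at hz
    obtain ⟨i, hi, rfl⟩ := hz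
    rw [mem_Ioo] at hi
    have hi' : i = f (f.symm i) := by simp
    have hz : f.symm.toEmbedding i = f.symm i := rfl
    rw [hz]
    obtain ⟨z, hz2⟩ : ∃ z, z = f.symm i := ⟨_, rfl⟩
    rw [← hz2] at hi' ⊢
    rw [hi'] at hi
    by_contra hcon
    rw [mem_union, mem_filter, mem_filter] at hcon
    push Not at hcon
    obtain ⟨a1, a2⟩ := hcon
    have b1 : u ≤ z := by
      by_contra hb
      exact absurd (hf (a1 (mem_univ _) hb)) (not_le.2 hi.1)
    have b2 : z ≤ w := by
      by_contra hb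
      have : w ≤ z := by
        by_contra hb2
        exact hb (a2 (mem_univ _) hb2)
      exact absurd (hf this) (not_le.2 hi.2)
    have b3 : u ≠ w := by
      rintro rfl
      omega
    exact hc (lt_of_le_of_ne (b1.trans b2) b3)
  have h3 := (card_le_card h2).trans (card_union_le _ _)
  have h4 := hK u
  have h5 := hK w
  omega

lemma ban_rel {f : P ≃ Fin m} (hf : Monotone f) {K : ℕ}
    (hK : ∀ x : P, (univ.filter (fun y : P => ¬ x ≤ y ∧ ¬ y ≤ x)).card ≤ K) (s₀ : ℕ) :
    Ban (2 * K + 2) (rel f s₀) where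
  one := by omega
  lt := fun i j h => h.1
  tr := by
    rintro i j k ⟨h1, h2⟩ ⟨h3, h4⟩
    refine ⟨h1.trans h3, ?_⟩
    by_cases a1 : i < s₀
    · exact Or.inl a1
    · by_cases a2 : s₀ + m ≤ k
      · exact Or.inr (Or.inl a2)
      · rcases h2 with h2 | h2 | ⟨u, w, e1, e2, h2⟩
        · omega
        · omega
        · rcases h4 with h4 | h4 | ⟨u', w', e3, e4, h4⟩
          · omega
          · omega
          · have : w = u' := f.injective (Fin.ext (by omega))
            subst this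
            exact Or.inr (Or.inr ⟨u, w', e1, e4, h2.trans h4⟩)
  bd := by
    intro i j hij
    refine ⟨by omega, ?_⟩
    by_cases a1 : i < s₀
    · exact Or.inl a1
    · by_cases a2 : s₀ + m ≤ j
      · exact Or.inr (Or.inl a2)
      · refine Or.inr (Or.inr ⟨f.symm ⟨i - s₀, by omega⟩, f.symm ⟨j - s₀, by omega⟩, ?_, ?_, ?_⟩)
        · simp; omega
        · simp; omega
        · apply lt_of_thin hf hK
          simp
          omega

omit [Fintype P] in
lemma bot_rel (f : P ≃ Fin m) (s₀ : ℕ) : Bot (rel f s₀) s₀ := fun _ _ hi hij => ⟨hij, Or.inl hi⟩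

omit [Fintype P] in
lemma top_rel (f : P ≃ Fin m) (s₀ : ℕ) : Top (rel f s₀) (s₀ + m) :=
  fun _ _ hj hij => ⟨hij, Or.inr (Or.inl hj)⟩

omit [Fintype P] in
lemma rel_P {f : P ≃ Fin m} (hf : Monotone f) {s₀ : ℕ} {u w : P} :
    rel f s₀ (s₀ + (f u : ℕ)) (s₀ + (f w : ℕ)) ↔ u < w := by
  constructor
  · rintro ⟨h1, h2 | h2 | ⟨u', w', e1, e2, h⟩⟩
    · omega
    · have := (f w).2
      omega
    · have h3 : u' = u := f.injective (Fin.ext (by omega))
      have h4 : w' = w := f.injective (Fin.ext (by omega))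
      rw [← h3, ← h4]; exact h
  · intro h
    have h1 : f u < f w := lt_of_le_of_ne (hf h.le) (fun h2 => h.ne (f.injective h2))
    rw [Fin.lt_def] at h1
    exact ⟨by omega, Or.inr (Or.inr ⟨u, w, rfl, rfl, h⟩)⟩

/-- the order isomorphism -/
lemma exists_iso {f : P ≃ Fin m} (hf : Monotone f) {b : ℕ} {s₀ : ℕ} (hr : Ban b (rel f s₀))
    (t : ℕ) : Nonempty (@OrderIso (Fin s₀ ⊕ₗ (P ⊕ₗ Fin t)) (Pt (s₀ + (m + t))) _
      (ord hr (s₀ + (m + t))).toLE) := by
  let _ := ord hr (s₀ + (m + t))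
  let g : Fin s₀ ⊕ₗ (P ⊕ₗ Fin t) → Pt (s₀ + (m + t)) := fun z =>
    Sum.elim (fun i : Fin s₀ => mk (i : ℕ) (by omega))
      (fun z' : P ⊕ₗ Fin t => Sum.elim (fun u : P => mk (s₀ + (f u : ℕ)) (by have := (f u).2; omega))
        (fun j : Fin t => mk (s₀ + m + (j : ℕ)) (by omega)) (ofLex z')) (ofLex z)
  have g1 : ∀ i : Fin s₀, v (g (toLex (Sum.inl i))) = i := fun i => rfl
  have g2 : ∀ u : P, v (g (toLex (Sum.inr (toLex (Sum.inl u))))) = s₀ + (f u : ℕ) := fun u => rfl
  have g3 : ∀ j : Fin t, v (g (toLex (Sum.inr (toLex (Sum.inr j))))) = s₀ + m + (j : ℕ) :=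
    fun j => rfl
  have key : ∀ x y, g x ≤ g y ↔ x ≤ y := by
    have le_def : ∀ x y : Pt (s₀ + (m + t)), x ≤ y ↔ (x = y ∨ rel f s₀ (v x) (v y)) :=
      fun x y => Iff.rfl
    have eq_iff : ∀ x y : Pt (s₀ + (m + t)), x = y ↔ v x = v y :=
      fun x y => ⟨fun h => by rw [h], v_inj⟩
    intro x y
    rw [le_def, eq_iff]
    rcases x with i | (u | j) <;> rcases y with i' | (u' | j')
    · change (v (g (toLex (Sum.inl i))) = v (g (toLex (Sum.inl i'))) ∨
        rel f s₀ (v (g (toLex (Sum.inl i)))) (v (g (toLex (Sum.inl i'))))) ↔ _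
      rw [g1, g1]
      have e : (toLex (Sum.inl i) : Fin s₀ ⊕ₗ (P ⊕ₗ Fin t)) ≤ toLex (Sum.inl i') ↔ i ≤ i' :=
        Sum.Lex.inl_le_inl_iff
      refine Iff.trans ?_ e.symm
      rw [Fin.le_def]
      constructor
      · rintro (h | h)
        · omega
        · exact h.1.le
      · intro h
        rcases Nat.lt_or_ge (i : ℕ) i' with h1 | h1
        · exact Or.inr ⟨h1, Or.inl i.2⟩
        · exact Or.inl (by omega)
    · refine ⟨fun _ => Sum.Lex.sep _ _, fun _ => Or.inr ?_⟩
      change rel f s₀ (v (g (toLex (Sum.inl i)))) (v (g (toLex (Sum.inr (toLex (Sum.inl u'))))))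
      rw [g1, g2]
      exact ⟨by omega, Or.inl i.2⟩
    · refine ⟨fun _ => Sum.Lex.sep _ _, fun _ => Or.inr ?_⟩
      change rel f s₀ (v (g (toLex (Sum.inl i)))) (v (g (toLex (Sum.inr (toLex (Sum.inr j'))))))
      rw [g1, g3]
      exact ⟨by omega, Or.inl i.2⟩
    · constructor
      · intro h
        exfalso
        change (v (g (toLex (Sum.inr (toLex (Sum.inl u))))) = v (g (toLex (Sum.inl i'))) ∨
          rel f s₀ (v (g (toLex (Sum.inr (toLex (Sum.inl u)))))) (v (g (toLex (Sum.inl i'))))) at h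
        rw [g1, g2] at h
        have := i'.2
        rcases h with h | h
        · omega
        · have := h.1
          omega
      · intro h
        exact absurd h (Sum.Lex.not_inr_le_inl)
    · change (v (g (toLex (Sum.inr (toLex (Sum.inl u))))) =
          v (g (toLex (Sum.inr (toLex (Sum.inl u'))))) ∨
        rel f s₀ (v (g (toLex (Sum.inr (toLex (Sum.inl u))))))
          (v (g (toLex (Sum.inr (toLex (Sum.inl u'))))))) ↔ _
      rw [g2, g2, rel_P hf]
      have e : (toLex (Sum.inr (toLex (Sum.inl u))) : Fin s₀ ⊕ₗ (P ⊕ₗ Fin t)) ≤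
          toLex (Sum.inr (toLex (Sum.inl u'))) ↔ u ≤ u' := by
        rw [Sum.Lex.inr_le_inr_iff, Sum.Lex.inl_le_inl_iff]
      refine Iff.trans ?_ e.symm
      rw [le_iff_eq_or_lt]
      constructor
      · rintro (h | h)
        · exact Or.inl (f.injective (Fin.ext (by omega)))
        · exact Or.inr h
      · rintro (h | h)
        · exact Or.inl (by rw [h])
        · exact Or.inr h
    · refine ⟨fun _ => Sum.Lex.inr (Sum.Lex.sep _ _), fun _ => Or.inr ?_⟩
      change rel f s₀ (v (g (toLex (Sum.inr (toLex (Sum.inl u))))))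
        (v (g (toLex (Sum.inr (toLex (Sum.inr j'))))))
      rw [g2, g3]
      have := (f u).2
      exact ⟨by omega, Or.inr (Or.inl (by omega))⟩
    · constructor
      · intro h
        exfalso
        change (v (g (toLex (Sum.inr (toLex (Sum.inr j))))) = v (g (toLex (Sum.inl i'))) ∨
          rel f s₀ (v (g (toLex (Sum.inr (toLex (Sum.inr j)))))) (v (g (toLex (Sum.inl i'))))) at h
        rw [g1, g3] at h
        have := i'.2
        rcases h with h | h
        · omega
        · have := h.1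
          omega
      · intro h
        exact absurd h (Sum.Lex.not_inr_le_inl)
    · constructor
      · intro h
        exfalso
        change (v (g (toLex (Sum.inr (toLex (Sum.inr j))))) =
          v (g (toLex (Sum.inr (toLex (Sum.inl u'))))) ∨
          rel f s₀ (v (g (toLex (Sum.inr (toLex (Sum.inr j))))))
            (v (g (toLex (Sum.inr (toLex (Sum.inl u'))))))) at h
        rw [g2, g3] at h
        have := (f u').2
        rcases h with h | h
        · omega
        · have := h.1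
          omega
      · intro h
        exfalso
        have e1 : (toLex (Sum.inr j) : P ⊕ₗ Fin t) ≤ toLex (Sum.inl u') := by
          exact Sum.Lex.inr_le_inr_iff.1 h
        exact absurd e1 Sum.Lex.not_inr_le_inl
    · change (v (g (toLex (Sum.inr (toLex (Sum.inr j))))) =
          v (g (toLex (Sum.inr (toLex (Sum.inr j'))))) ∨
        rel f s₀ (v (g (toLex (Sum.inr (toLex (Sum.inr j))))))
          (v (g (toLex (Sum.inr (toLex (Sum.inr j'))))))) ↔ _
      rw [g3, g3]
      have e : (toLex (Sum.inr (toLex (Sum.inr j))) : Fin s₀ ⊕ₗ (P ⊕ₗ Fin t)) ≤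
          toLex (Sum.inr (toLex (Sum.inr j'))) ↔ j ≤ j' := by
        rw [Sum.Lex.inr_le_inr_iff, Sum.Lex.inr_le_inr_iff]
      refine Iff.trans ?_ e.symm
      rw [Fin.le_def]
      constructor
      · rintro (h | h)
        · omega
        · have := h.1
          omega
      · intro h
        rcases Nat.lt_or_ge (j : ℕ) j' with h1 | h1
        · exact Or.inr ⟨by omega, Or.inr (Or.inl (by omega))⟩
        · exact Or.inl (by omega)
  have surj : Function.Surjective g := by
    intro y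
    have hy := v_lt y
    by_cases h1 : v y < s₀
    · exact ⟨toLex (Sum.inl ⟨v y, h1⟩), v_inj (g1 _)⟩
    · by_cases h2 : v y < s₀ + m
      · refine ⟨toLex (Sum.inr (toLex (Sum.inl (f.symm ⟨v y - s₀, by omega⟩)))), v_inj ?_⟩
        rw [g2]
        simp
        omega
      · refine ⟨toLex (Sum.inr (toLex (Sum.inr ⟨v y - (s₀ + m), by omega⟩))), v_inj ?_⟩
        rw [g3]
        simp
        omega
  exact ⟨RelIso.ofSurjective (OrderEmbedding.ofMapLEIff g key) surj⟩

lemma balance_ext {f : P ≃ Fin m} (hf : Monotone f) [Nonempty P] {b : ℕ} {s₀ : ℕ}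
    (hr : Ban b (rel f s₀)) (t : ℕ) {x y : ℕ} (hx : x < s₀ + (m + t)) (hy : y < s₀ + (m + t))
    (hxy : x ≠ y) : min (pr (rel f s₀) (s₀ + (m + t)) x y) (pr (rel f s₀) (s₀ + (m + t)) y x) ≤
      balance P := by
  obtain ⟨e⟩ := exists_iso hf hr t
  let _ := ord hr (s₀ + (m + t))
  have hne : (mk x hx : Pt (s₀ + (m + t))) ≠ mk y hy := by
    intro h
    apply hxy
    have := congrArg v h
    simpa using this
  have h1 := prob_pt hr (s₀ + (m + t)) hne
  have h2 := prob_pt hr (s₀ + (m + t)) hne.symm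
  rw [v_mk, v_mk] at h1 h2
  rw [← h1, ← h2]
  have h3 : ∀ a c : Pt (s₀ + (m + t)), prob (Pt (s₀ + (m + t))) a c =
      prob (Fin s₀ ⊕ₗ (P ⊕ₗ Fin t)) (e.symm a) (e.symm c) := fun a c => prob_iso e.symm a c
  rw [h3, h3]
  have hP : 0 ≤ balance P := balance_nonneg
  have chain : ∀ k : ℕ, balance (Fin k) ≤ balance P := by
    intro k
    rcases Nat.eq_zero_or_pos k with rfl | hk
    · exact balance_le_iff' hP fun x => x.elim0
    · have : Nonempty (Fin k) := ⟨⟨0, hk⟩⟩
      rw [balance_chain (fun x y => le_total x y)]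
      exact hP
  exact lex_le hP (chain s₀) (balance_le_iff' hP (lex_le hP le_rfl (chain t))) _ _

end

end Pool.Agent.Q141.FR
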