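import Pool.Agent.Q141.FR.DD
import Pool.Agent.Q141.FR.Emb

/-! Comparison of two banded orders with equal windows. -/

set_option autoImplicit false

open Finset
open scoped Classical

namespace Pool.Agent.Q141.FR

open Pool.Agent.H13R3.WB Pool.Agent.H931R3.Bal

lemma inc_near {b : ℕ} {r : ℕ → ℕ → Prop} (hr : Ban b r) {x y : ℕ} (h : Inc r x y) :
    x < y + b ∧ y < x + b := by
  constructor
  · by_contra hc
    exact h.2.2 (hr.bd _ _ (by omega))
  · by_contra hc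
    exact h.2.1 (hr.bd _ _ (by omega))

lemma agree_r {L : ℕ} {r r' : ℕ → ℕ → Prop} {w w' : ℕ} (hag : Agree L (sh r' w') (sh r w))
    {i j : ℕ} (hi : i < L) (hj : j < L) : r' (w' + i) (w' + j) ↔ r (w + i) (w + j) :=
  hag i j hi hj

lemma agree_inc {L : ℕ} {r r' : ℕ → ℕ → Prop} {w w' : ℕ} (hag : Agree L (sh r' w') (sh r w))
    {i j : ℕ} (hi : i < L) (hj : j < L) : Inc r' (w' + i) (w' + j) ↔ Inc r (w + i) (w + j) := by
  unfold Inc
  rw [agree_r hag hi hj, agree_r hag hj hi]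
  have : w' + i ≠ w' + j ↔ w + i ≠ w + j := by omega
  rw [this]

/-- components are seen in a window -/
lemma gd_win {b L : ℕ} {r r' : ℕ → ℕ → Prop} (hr : Ban b r) (hr' : Ban b r') {w w' : ℕ}
    (hag : Agree L (sh r' w') (sh r w)) {i j : ℕ} (hi : 3 * b ≤ i) (hi2 : i + 3 * b ≤ L)
    (hj : j < L) (h : Gd r' (w' + i) (w' + j)) : Gd r (w + i) (w + j) := by
  have hb := hr.one
  obtain ⟨u, v, z, h1, h2, h3, h4, h5⟩ := h
  have n2 := inc_near hr' h2
  have n3 := inc_near hr' h3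
  have pos : (∃ iu, u = w' + iu ∧ i < iu + 2 * b ∧ iu < i + 2 * b) ∧
      (∃ iv, v = w' + iv ∧ i < iv + 2 * b ∧ iv < i + 2 * b) ∧
      (∃ iz, z = w' + iz ∧ i < iz + 2 * b ∧ iz < i + 2 * b) := by
    refine ⟨⟨u - w', ?_, ?_, ?_⟩, ⟨v - w', ?_, ?_, ?_⟩, ⟨z - w', ?_, ?_, ?_⟩⟩ <;> omega
  obtain ⟨⟨iu, rfl, p1, p2⟩, ⟨iv, rfl, p3, p4⟩, ⟨iz, rfl, p5, p6⟩⟩ := pos
  have back : ∀ it ic, it < L → ic < L → (w' + it = w' + ic ↔ w + it = w + ic) := by
    intro it ic _ _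
    omega
  -- an element incomparable to one of the three lies in the window
  have loc : ∀ t ic, i < ic + 2 * b → ic < i + 2 * b → Inc r t (w + ic) → ∃ it, t = w + it ∧ it < L := by
    intro t ic c1 c2 ht
    have := inc_near hr ht
    exact ⟨t - w, by omega, by omega⟩
  refine ⟨w + iu, w + iv, w + iz, (agree_r hag (by omega) (by omega)).1 h1,
    (agree_inc hag (by omega) (by omega)).1 h2, (agree_inc hag (by omega) (by omega)).1 h3, ?_,
    fun t => ⟨fun ht => ?_, fun ht => ?_, fun ht => ?_⟩⟩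
  · omega
  · obtain ⟨it, rfl, hit⟩ := loc t iu p1 p2 ht
    have h6 := (h5 (w' + it)).1 ((agree_inc hag (by omega) (by omega)).2 ht)
    omega
  · obtain ⟨it, rfl, hit⟩ := loc t iv p3 p4 ht
    have h6 := (h5 (w' + it)).2.1 ((agree_inc hag (by omega) (by omega)).2 ht)
    omega
  · obtain ⟨it, rfl, hit⟩ := loc t iz p5 p6 ht
    have h6 := (h5 (w' + it)).2.2 ((agree_inc hag (by omega) (by omega)).2 ht)
    omega

lemma low_agree {b L : ℕ} {ρ ρ' : ℕ → ℕ → Prop} (hρ : Ban b ρ) (hρ' : Ban b ρ')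
    (h : Agree L ρ ρ') {H : Finset ℕ} (hH : H ⊆ range L) : Low ρ H ↔ Low ρ' H := by
  constructor
  · intro h1 j hj i hij
    have h2 := mem_range.1 (hH hj)
    have h3 := hρ'.lt _ _ hij
    exact h1 j hj i ((h i j (by omega) h2).2 hij)
  · intro h1 j hj i hij
    have h2 := mem_range.1 (hH hj)
    have h3 := hρ.lt _ _ hij
    exact h1 j hj i ((h i j (by omega) h2).1 hij)

lemma pr_agree {b L : ℕ} {ρ ρ' : ℕ → ℕ → Prop} (hρ : Ban b ρ) (hρ' : Ban b ρ')
    (h : Agree L ρ ρ') (x y : ℕ) : pr ρ L x y = pr ρ' L x y := by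
  unfold pr
  have e1 : pc (Low ρ) L ∅ (range L) = pc (Low ρ') L ∅ (range L) :=
    pc_congr fun H _ hH => low_agree hρ hρ' h hH
  have e2 : pc (LowXY ρ x y) L ∅ (range L) = pc (LowXY ρ' x y) L ∅ (range L) :=
    pc_congr fun H _ hH => by
      unfold LowXY
      rw [low_agree hρ hρ' h hH]
  rw [e1, e2]

lemma err_nonneg {b : ℕ} (hb : 1 ≤ b) (k : ℕ) : 0 ≤ err b k := by
  unfold err
  have hC : (1 : ℝ) ≤ ((2 * b : ℕ) : ℝ) ^ (2 * b) := by
    apply one_le_pow₀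
    exact_mod_cast (by omega : 1 ≤ 2 * b)
  have : 0 ≤ 1 - 1 / ((2 * b : ℕ) : ℝ) ^ (2 * b) := by
    rw [sub_nonneg, div_le_one (by linarith)]; exact hC
  positivity

/-- comparison of the probabilities at equal windows -/
lemma compare {b k : ℕ} {r r' : ℕ → ℕ → Prop} (hr : Ban b r) (hr' : Ban b r') {a a' N M X Y : ℕ}
    (hag : Agree (6 * b + 4 * b * (k + 1)) (sh r' a) (sh r a'))
    (hN : a + (6 * b + 4 * b * (k + 1)) ≤ N) (hM : a' + (6 * b + 4 * b * (k + 1)) ≤ M)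
    (hX : X + b ≤ b + 2 * b * (k + 1) + 4 * b) (hY : b + 2 * b * (k + 1) + b ≤ Y) :
    pr r' N (a + X) (a + Y) ≤ (1 + err b k) ^ 4 * pr r M (a' + X) (a' + Y) := by
  have w1 := (window hr' a k N X Y hN hX hY).2
  have w2 := (window hr a' k M X Y hM hX hY).1
  rw [pr_agree (hr'.sh a) (hr.sh a') hag] at w1
  have he := err_nonneg hr.one k
  calc pr r' N (a + X) (a + Y) ≤ (1 + err b k) ^ 2 * pr (sh r a') (6 * b + 4 * b * (k + 1)) X Y := w1
    _ ≤ (1 + err b k) ^ 2 * ((1 + err b k) ^ 2 * pr r M (a' + X) (a' + Y)) := by gcongr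
    _ = _ := by ring

end Pool.Agent.Q141.FR
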