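import Pool.Agent.Q141.FR.DD
import Pool.Agent.Q141.FR.Emb

/-! The poset N and direct sums of it with chains. -/

set_option autoImplicit false

open Finset

namespace Pool.Agent.Q141.FR

open Pool.Agent.H13R3.WB Pool.Agent.H931R3.Bal

/-- the relation `0 < 2`, `1 < 2`, `1 < 3` -/
def rN (i j : Fin 4) : Bool := (i == 0 && j == 2) || (i == 1 && j == 2) || (i == 1 && j == 3)

/-- the poset N -/
def N4 : Type := Fin 4

instance : Fintype N4 := inferInstanceAs (Fintype (Fin 4))
instance : DecidableEq N4 := inferInstanceAs (DecidableEq (Fin 4))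
instance : Nonempty N4 := ⟨(0 : Fin 4)⟩

lemma rN_tr : ∀ a b c : Fin 4, rN a b = true → rN b c = true → rN a c = true := by decide
lemma rN_as : ∀ a b : Fin 4, rN a b = true → rN b a = true → False := by decide

instance : PartialOrder N4 where
  le x y := x = y ∨ rN x y = true
  lt x y := rN x y = true
  le_refl x := Or.inl rfl
  le_trans x y z := by
    rintro (rfl | h1) (rfl | h2)
    · exact Or.inl rfl
    · exact Or.inr h2
    · exact Or.inr h1
    · exact Or.inr (rN_tr _ _ _ h1 h2)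
  lt_iff_le_not_ge x y := by
    constructor
    · intro h
      refine ⟨Or.inr h, ?_⟩
      rintro (rfl | h2)
      · exact rN_as _ _ h h
      · exact rN_as _ _ h h2
    · rintro ⟨rfl | h1, h2⟩
      · exact absurd (Or.inl rfl) h2
      · exact h1
  le_antisymm x y := by
    rintro (rfl | h1) (h2 | h2)
    · rfl
    · rfl
    · exact h2.symm
    · exact absurd (rN_as _ _ h1 h2) id

/-- the elements -/
def eN (i : Fin 4) : N4 := i

lemma N4_card : Fintype.card N4 = 4 := Fintype.card_fin 4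

/-- the linear extensions as permutations -/
def F4 : Finset (Fin 4 ≃ Fin 4) := univ.filter (fun f => f 0 < f 2 ∧ f 1 < f 2 ∧ f 1 < f 3)

lemma F4_card : F4.card = 5 := by decide +kernel

lemma F4_min : ∀ x y : Fin 4, min (F4.filter fun f => f x < f y).card
    (F4.filter fun f => f y < f x).card ≤ 2 := by decide +kernel

lemma mono4 (f : Fin 4 ≃ Fin 4) : Monotone (fun x : N4 => f x) ↔ f ∈ F4 := by
  unfold F4
  rw [mem_filter]
  constructor
  · intro h
    have key : ∀ i j : Fin 4, rN i j = true → f i < f j := by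
      intro i j hij
      have h1 : (eN i : N4) < eN j := hij
      rcases (h h1.le).lt_or_eq with h2 | h2
      · exact h2
      · have : i = j := f.injective h2
        subst this
        exact absurd h1 (lt_irrefl _)
    exact ⟨mem_univ _, key 0 2 (by decide), key 1 2 (by decide), key 1 3 (by decide)⟩
  · rintro ⟨_, h1, h2, h3⟩ x y hxy
    rcases hxy with rfl | hxy
    · exact le_rfl
    · have key : ∀ i j : Fin 4, rN i j = true → (i = 0 ∧ j = 2) ∨ (i = 1 ∧ j = 2) ∨
        (i = 1 ∧ j = 3) := by decide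
      have hx : (x = (0 : Fin 4) ∧ y = (2 : Fin 4)) ∨ (x = (1 : Fin 4) ∧ y = (2 : Fin 4)) ∨
        (x = (1 : Fin 4) ∧ y = (3 : Fin 4)) := key x y hxy
      rcases hx with ⟨rfl, rfl⟩ | ⟨rfl, rfl⟩ | ⟨rfl, rfl⟩
      · exact h1.le
      · exact h2.le
      · exact h3.le

lemma sum_LEn4 (g : (Fin 4 ≃ Fin 4) → ℝ) : ∑ f : LEn N4 4, g f.1 = ∑ f ∈ F4, g f := by
  classical
  have e1 : ∑ f ∈ F4, g f = ∑ f : {f : Fin 4 ≃ Fin 4 // f ∈ F4}, g f.1 :=
    (Finset.sum_coe_sort F4 g).symm
  rw [e1]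
  let E : LEn N4 4 ≃ {f : Fin 4 ≃ Fin 4 // f ∈ F4} :=
    { toFun := fun f => ⟨f.1, (mono4 f.1).1 f.2⟩
      invFun := fun f => ⟨f.1, (mono4 f.1).2 f.2⟩
      left_inv := fun f => rfl
      right_inv := fun f => rfl }
  exact Fintype.sum_equiv E _ _ (fun f => rfl)

lemma card_LEn4 : (Fintype.card (LEn N4 4) : ℝ) = 5 := by
  have := sum_LEn4 (fun _ => 1)
  simp only [sum_const, nsmul_eq_mul, mul_one, card_univ] at this
  rw [this, F4_card]
  norm_num

lemma prob_N4 (x y : Fin 4) : prob N4 (eN x) (eN y) =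
    ((F4.filter fun f => f x < f y).card : ℝ) / 5 := by
  classical
  rw [prob_eq N4_card]
  unfold Pool.Agent.H931R3.Bal.pr
  rw [card_LEn4]
  have := sum_LEn4 (fun f => if f x < f y then (1 : ℝ) else 0)
  have h2 : ∑ f : LEn N4 4, (if f.1 (eN x) < f.1 (eN y) then (1 : ℝ) else 0) =
      ∑ f ∈ F4, if f x < f y then (1 : ℝ) else 0 := this
  rw [h2, sum_boole]

lemma balance_N4 : balance N4 ≤ 2 / 5 := by
  apply balance_le_iff' (by norm_num)
  intro x y
  have h1 := prob_N4 x y
  have h2 := prob_N4 y x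
  change prob N4 x y = _ at h1
  change prob N4 y x = _ at h2
  rw [h1, h2]
  have h3 := F4_min x y
  rcases min_le_iff.1 h3 with h | h
  · refine (min_le_left _ _).trans ?_
    have : ((F4.filter fun f => f x < f y).card : ℝ) ≤ 2 := by exact_mod_cast h
    linarith
  · refine (min_le_right _ _).trans ?_
    have : ((F4.filter fun f => f y < f x).card : ℝ) ≤ 2 := by exact_mod_cast h
    linarith

/-- the direct sum of N and a chain -/
abbrev NC (t : ℕ) : Type := N4 ⊕ₗ Fin t

lemma card_NC (t : ℕ) : Fintype.card (NC t) = 4 + t := by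
  rw [card_lexS, N4_card, Fintype.card_fin]

lemma balance_NC (t : ℕ) : balance (NC t) ≤ 2 / 5 := by
  apply balance_le_iff' (by norm_num)
  apply lex_le (by norm_num) balance_N4
  rcases Nat.eq_zero_or_pos t with rfl | hk
  · exact balance_le_iff' (by norm_num) fun x => x.elim0
  · have : Nonempty (Fin t) := ⟨⟨0, hk⟩⟩
    rw [balance_chain (fun x y => le_total x y)]
    norm_num

lemma NC_not_inD (t : ℕ) : ¬ InD (NC t) := by
  intro h
  have h1 := InD.allGd h
  have h2 : AllGd (fun x y : N4 => x < y) := by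
    refine allGd_emb (g := fun x : N4 => (toLex (Sum.inl x) : NC t))
      (fun x y h => Sum.inl_injective (toLex.injective h)) (fun x y => Sum.Lex.inl_lt_inl_iff) ?_ h1
    rintro (a | a) x ha
    · exact ⟨a, rfl⟩
    · exact absurd (Sum.Lex.inl_lt_inr x a) ha.2.2
  have i03 : Inc (fun x y : N4 => x < y) (eN 0) (eN 3) := by
    refine ⟨by decide, ?_, ?_⟩
    · change ¬ (rN 0 3 = true); decide
    · change ¬ (rN 3 0 = true); decide
  have i23 : Inc (fun x y : N4 => x < y) (eN 2) (eN 3) := by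
    refine ⟨by decide, ?_, ?_⟩
    · change ¬ (rN 2 3 = true); decide
    · change ¬ (rN 3 2 = true); decide
  have i10 : Inc (fun x y : N4 => x < y) (eN 1) (eN 0) := by
    refine ⟨by decide, ?_, ?_⟩
    · change ¬ (rN 1 0 = true); decide
    · change ¬ (rN 0 1 = true); decide
  obtain ⟨u, v, w, k1, k2, k3, k4, k5⟩ := h2 _ _ i03
  have n20 : eN 2 ≠ eN 0 := by decide
  have n13 : eN 1 ≠ eN 3 := by decide
  rcases k4 with ⟨rfl, rfl | rfl⟩ | ⟨rfl, rfl | rfl⟩
  · exact n20 ((k5 _).2.1 i23)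
  · exact n20 ((k5 _).2.2 i23)
  · exact n13 ((k5 _).2.1 i10)
  · exact n13 ((k5 _).2.2 i10)

lemma NC_width (t : ℕ) (s : Finset (NC t)) (hs : IsAntichain (· ≤ ·) (s : Set (NC t))) :
    s.card ≤ 2 := by
  by_contra hc
  obtain ⟨a, ha, b, hb, c, hc', hab, hac, hbc⟩ := Finset.two_lt_card.1 (by omega : 2 < s.card)
  have l1 : ∀ x y : NC t, x ∈ s → y ∈ s → x ≠ y → ¬ x ≤ y := fun x y hx hy hxy =>
    hs hx hy hxy
  have key : ∀ x y : NC t, x ∈ s → y ∈ s → x ≠ y → ∃ x' y' : N4,
      x = toLex (Sum.inl x') ∧ y = toLex (Sum.inl y') ∧ ¬ x' ≤ y' ∧ ¬ y' ≤ x' := by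
    intro x y hx hy hxy
    have h1 := l1 x y hx hy hxy
    have h2 := l1 y x hy hx hxy.symm
    rcases x with x | x <;> rcases y with y | y
    · exact ⟨x, y, rfl, rfl, fun h => h1 (Sum.Lex.inl_le_inl_iff.2 h),
        fun h => h2 (Sum.Lex.inl_le_inl_iff.2 h)⟩
    · exact absurd (Sum.Lex.sep _ _) h1
    · exact absurd (Sum.Lex.sep _ _) h2
    · rcases le_total x y with h | h
      · exact absurd (Sum.Lex.inr_le_inr_iff.2 h) h1
      · exact absurd (Sum.Lex.inr_le_inr_iff.2 h) h2
  obtain ⟨a', b', rfl, rfl, h1, h2⟩ := key a b ha hb hab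
  obtain ⟨a'', c', e, rfl, h3, h4⟩ := key _ c ha hc' hac
  obtain ⟨b'', c'', e', e'', h5, h6⟩ := key _ _ hb hc' hbc
  have e1 : a' = a'' := Sum.inl_injective (toLex.injective e)
  have e2 : b' = b'' := Sum.inl_injective (toLex.injective e')
  have e3 : c' = c'' := Sum.inl_injective (toLex.injective e'')
  subst e1 e2 e3
  have fin : ∀ x y z : Fin 4, ¬ (x = y ∨ rN x y = true) → ¬ (y = x ∨ rN y x = true) →
      ¬ (x = z ∨ rN x z = true) → ¬ (z = x ∨ rN z x = true) →
      ¬ (y = z ∨ rN y z = true) → ¬ (z = y ∨ rN z y = true) → False := by decide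
  exact fin a' b' c' h1 h2 h3 h4 h5 h6

end Pool.Agent.Q141.FR
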