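import Pool.Agent.Q141.FR.Rate
import Pool.Agent.Q141.FR.N4
import Pool.Agent.Y491.ID.Main

/-! The reduction to posets with `n` elements, with error `n ^ (-c)`. -/

set_option autoImplicit false

open Finset
open scoped Classical

namespace Pool.Agent.Q141.FR

open Pool.Agent.H13R3.WB Pool.Agent.H931R3.Bal

lemma thin {ε : ℝ} (hε : 0 < ε) (hε2 : ε ≤ 1 / 2) : ∃ K : ℕ, ∀ (P : Type) [Fintype P]
    [PartialOrder P], balance P < 1 / 2 - ε →
    ∀ x : P, (univ.filter (fun y : P => ¬ x ≤ y ∧ ¬ y ≤ x)).card ≤ K := by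
  obtain ⟨B, _, h⟩ := Pool.Agent.Y491.ID.incomparable_balance
  refine ⟨⌈Real.exp (B * Real.log (2 / ε) ^ 3 / ε ^ 4)⌉₊, fun P _ _ hP x => ?_⟩
  by_contra hc
  push Not at hc
  have h1 := h ε hε hε2 P x (by
    have h2 : Nat.card {y : P // ¬ x ≤ y ∧ ¬ y ≤ x} =
        (univ.filter (fun y : P => ¬ x ≤ y ∧ ¬ y ≤ x)).card := by
      rw [Nat.card_eq_fintype_card, Fintype.card_subtype]
    rw [h2]
    refine (Nat.le_ceil _).trans ?_
    exact_mod_cast hc.le)
  linarith

lemma exists_pair {P : Type} [Fintype P] [PartialOrder P] [Nonempty P] (h : ¬ InD P) :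
    ∃ x y : P, Inc (fun x y : P => x < y) x y ∧ ¬ Gd (fun x y : P => x < y) x y := by
  by_contra hc
  push Not at hc
  exact h (InD_of_allGd _ P rfl hc)

theorem main_D : ∃ c : ℝ, 0 < c ∧ ∃ n₀ : ℕ, 1 ≤ n₀ ∧ ∀ n : ℕ, n₀ ≤ n →
    ∀ (P : Type) [Fintype P] [PartialOrder P] [Nonempty P], ¬ InD P →
    ∃ (Q : Type) (_ : Fintype Q) (_ : PartialOrder Q), Fintype.card Q = n ∧ ¬ InD Q ∧
      (∀ s : Finset Q, IsAntichain (· ≤ ·) (s : Set Q) →
        ∃ u : Finset P, IsAntichain (· ≤ ·) (u : Set P) ∧ s.card ≤ u.card) ∧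
      balance Q ≤ balance P + (n : ℝ) ^ (-c) := by
  obtain ⟨K, hK⟩ := thin (ε := 1 / 10) (by norm_num) (by norm_num)
  obtain ⟨b, hb⟩ : ∃ b, b = 2 * K + 2 := ⟨_, rfl⟩
  obtain ⟨c, hc, n₀, h1, h⟩ := params (b := b) (by omega)
  refine ⟨c, hc, max n₀ 4, le_max_of_le_left h1, fun n hn P _ _ _ hP => ?_⟩
  obtain ⟨x, y, hxy, hgd⟩ := exists_pair hP
  have hn4 : 4 ≤ n := (le_max_right _ _).trans hn
  have hpow : (0 : ℝ) ≤ (n : ℝ) ^ (-c) := Real.rpow_nonneg (Nat.cast_nonneg _) _
  by_cases hbal : balance P < 2 / 5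
  · have hK' := hK P (by linarith)
    obtain ⟨f, hf⟩ := (LEn_nonempty (P := P) rfl).some
    obtain ⟨k, hk1, hk2⟩ := h n ((le_max_left _ _).trans hn)
    obtain ⟨R⟩ := exists_red hf hb hK' k x
    have hr : Ban b (rel f (wl b k + 3 * b)) := by rw [hb]; exact ban_rel hf hK' _
    have hs := hk1 R.n R.size
    refine ⟨Pt n, inferInstance, ord R.ban n, card_Pt n, red_not_inD R hf hr hxy hgd (by omega),
      fun s hs => red_width R hf s ((anti_pt R.ban s).1 hs), ?_⟩
    exact (R.bal n hs).trans (hk2 _ balance_nonneg (by linarith))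
  · refine ⟨NC (n - 4), inferInstance, inferInstance, by rw [card_NC]; omega, NC_not_inD _,
      fun s hs => ⟨{x, y}, ?_, ?_⟩, ?_⟩
    · intro a ha a' ha' hne
      simp only [coe_insert, coe_singleton, Set.mem_insert_iff, Set.mem_singleton_iff] at ha ha'
      rcases ha with rfl | rfl <;> rcases ha' with rfl | rfl
      · exact absurd rfl hne
      · exact le_of_inc hxy
      · exact le_of_inc hxy.symm
      · exact absurd rfl hne
    · rw [card_pair hxy.1]
      exact NC_width _ s hs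
    · have := balance_NC (n - 4)
      linarith

/-- the balance constants of the posets with `n` elements form a finite set -/
lemma finite_vals (n : ℕ) : {d : ℝ | ∃ (P : Type) (_ : Fintype P) (_ : PartialOrder P),
    Nonempty P ∧ Fintype.card P = n ∧ balance P = d}.Finite := by
  have hfin : Finite (PartialOrder (Pt n)) := by
    have hPt : Finite (Pt n) := inferInstance
    apply Finite.of_injective (fun o : PartialOrder (Pt n) => o.le)
    intro o o' h
    apply PartialOrder.ext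
    intro x y
    exact iff_of_eq (congrFun (congrFun h x) y)
  refine (Set.finite_range (fun o : PartialOrder (Pt n) => @balance (Pt n) _ o)).subset ?_
  rintro d ⟨P, _, _, hne, hc, rfl⟩
  let e : P ≃ Pt n := Fintype.equivOfCardEq (by rw [hc, card_Pt])
  let o : PartialOrder (Pt n) := PartialOrder.lift e.symm e.symm.injective
  let E : P ≃o Pt n := { toEquiv := e
                         map_rel_iff' := by
                            intro a c
                            change e.symm (e a) ≤ e.symm (e c) ↔ a ≤ c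
                            rw [Equiv.symm_apply_apply, Equiv.symm_apply_apply] }
  have : Nonempty (Pt n) := ⟨e hne.some⟩
  exact ⟨o, le_antisymm (balance_iso E.symm) (balance_iso E)⟩

lemma exists_small {c ε : ℝ} (hc : 0 < c) (hε : 0 < ε) (n₀ : ℕ) :
    ∃ n : ℕ, n₀ ≤ n ∧ (n : ℝ) ^ (-c) < ε := by
  have h1 : Filter.Tendsto (fun n : ℕ => (n : ℝ) ^ (-c)) Filter.atTop (nhds 0) :=
    (tendsto_rpow_neg_atTop hc).comp tendsto_natCast_atTop_atTop
  obtain ⟨n, hn⟩ := ((h1.eventually_lt_const hε).and (Filter.eventually_ge_atTop n₀)).exists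
  exact ⟨n, hn.2, hn.1⟩

/-- a gap for a class of posets is a statement about its members with `n` elements -/
lemma gap_iff {c : ℝ} (hc : 0 < c) {n₀ : ℕ} (h1 : 1 ≤ n₀)
    (p : (P : Type) → [PartialOrder P] → Prop)
    (h : ∀ n : ℕ, n₀ ≤ n → ∀ (P : Type) [Fintype P] [PartialOrder P] [Nonempty P], p P →
      ∃ (Q : Type) (_ : Fintype Q) (_ : PartialOrder Q), Fintype.card Q = n ∧ p Q ∧
        balance Q ≤ balance P + (n : ℝ) ^ (-c)) (γ : ℝ) :
    (∃ ε : ℝ, 0 < ε ∧ ∀ (P : Type) [Fintype P] [PartialOrder P] [Nonempty P], p P →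
      γ + ε ≤ balance P) ↔
    ∃ n : ℕ, n₀ ≤ n ∧ ∀ (P : Type) [Fintype P] [PartialOrder P], Fintype.card P = n → p P →
      γ + (n : ℝ) ^ (-c) < balance P := by
  constructor
  · rintro ⟨ε, hε, hP⟩
    obtain ⟨n, hn, hn2⟩ := exists_small hc hε n₀
    refine ⟨n, hn, fun P _ _ hcard hp => ?_⟩
    have : Nonempty P := Fintype.card_pos_iff.1 (by omega)
    have := hP P hp
    linarith
  · rintro ⟨n, hn, hP⟩
    obtain ⟨V, hV⟩ : ∃ V, V = {d : ℝ | ∃ (P : Type) (_ : Fintype P) (_ : PartialOrder P),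
      Fintype.card P = n ∧ p P ∧ balance P = d} := ⟨_, rfl⟩
    have hVf : V.Finite := by
      refine (finite_vals n).subset ?_
      rw [hV]
      rintro d ⟨P, i1, i2, k1, _, k3⟩
      exact ⟨P, i1, i2, Fintype.card_pos_iff.1 (by omega), k1, k3⟩
    rcases V.eq_empty_or_nonempty with hVe | hVn
    · refine ⟨1, one_pos, fun P _ _ _ hp => ?_⟩
      obtain ⟨Q, i1, i2, k1, k2, _⟩ := h n hn P hp
      have : balance Q ∈ V := by rw [hV]; exact ⟨Q, i1, i2, k1, k2, rfl⟩
      rw [hVe] at this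
      exact absurd this (Set.notMem_empty _)
    · obtain ⟨d, hd, hmin⟩ := Set.exists_min_image V id hVf hVn
      have hd' := hd
      rw [hV] at hd'
      obtain ⟨P₀, _, _, k1, k2, k3⟩ := hd'
      have h3 := hP P₀ k1 k2
      rw [k3] at h3
      refine ⟨d - (γ + (n : ℝ) ^ (-c)), by linarith, fun P _ _ _ hp => ?_⟩
      obtain ⟨Q, i1, i2, l1, l2, l3⟩ := h n hn P hp
      have h4 : d ≤ balance Q := hmin (balance Q) (by rw [hV]; exact ⟨Q, i1, i2, l1, l2, rfl⟩)
      linarith

end Pool.Agent.Q141.FR
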