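import Mathlib

/-! Numbers of paths of finite sets of natural numbers that grow by one element at a time, and
lower sets of banded orders on the natural numbers. -/

set_option autoImplicit false

open Finset
open scoped Classical

namespace Pool.Agent.Q141.FR

/-- The number of ways to get from `I` to `J` by adding `m` elements one at a time, such that all
sets after the first one satisfy `A`. -/
noncomputable def pc (A : Finset ℕ → Prop) : ℕ → Finset ℕ → Finset ℕ → ℕ
  | 0, I, J => if I = J then 1 else 0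
  | m + 1, I, J => ∑ p ∈ (J \ I).filter (fun p => A (insert p I)), pc A m (insert p I) J

variable {A B : Finset ℕ → Prop}

lemma pc_zero (I J : Finset ℕ) : pc A 0 I J = if I = J then 1 else 0 := rfl

lemma pc_succ (m : ℕ) (I J : Finset ℕ) : pc A (m + 1) I J =
    ∑ p ∈ (J \ I).filter (fun p => A (insert p I)), pc A m (insert p I) J := rfl

lemma pc_sub {m : ℕ} : ∀ {I J : Finset ℕ}, pc A m I J ≠ 0 → I ⊆ J := by
  induction m with
  | zero =>
    intro I J h
    rw [pc_zero] at h
    by_contra hc
    apply h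
    rw [if_neg]
    rintro rfl
    exact hc (Subset.refl _)
  | succ m ih =>
    intro I J h
    rw [pc_succ] at h
    obtain ⟨p, _, hp⟩ := exists_ne_zero_of_sum_ne_zero h
    exact (subset_insert p I).trans (ih hp)

lemma pc_eq_zero {m : ℕ} {I J : Finset ℕ} (h : ¬ I ⊆ J) : pc A m I J = 0 := by
  by_contra hc
  exact h (pc_sub hc)

lemma pc_card {m : ℕ} : ∀ {I J : Finset ℕ}, pc A m I J ≠ 0 → J.card = I.card + m := by
  induction m with
  | zero =>
    intro I J h
    rw [pc_zero] at h
    by_cases h1 : I = J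
    · rw [h1]; rfl
    · rw [if_neg h1] at h; exact absurd rfl h
  | succ m ih =>
    intro I J h
    rw [pc_succ] at h
    obtain ⟨p, hp1, hp⟩ := exists_ne_zero_of_sum_ne_zero h
    have h1 := ih hp
    rw [mem_filter, mem_sdiff] at hp1
    rw [card_insert_of_notMem hp1.1.2] at h1
    omega

lemma pc_A {m : ℕ} : ∀ {I J : Finset ℕ}, pc A m I J ≠ 0 → A I → A J := by
  induction m with
  | zero =>
    intro I J h hI
    rw [pc_zero] at h
    by_cases h1 : I = J
    · rw [← h1]; exact hI
    · rw [if_neg h1] at h; exact absurd rfl h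
  | succ m ih =>
    intro I J h _
    rw [pc_succ] at h
    obtain ⟨p, hp1, hp⟩ := exists_ne_zero_of_sum_ne_zero h
    rw [mem_filter] at hp1
    exact ih hp hp1.2

lemma pc_congr {m : ℕ} : ∀ {I J : Finset ℕ},
    (∀ H, I ⊆ H → H ⊆ J → (A H ↔ B H)) → pc A m I J = pc B m I J := by
  induction m with
  | zero => intro I J _; rfl
  | succ m ih =>
    intro I J h
    by_cases hIJ : I ⊆ J
    · rw [pc_succ, pc_succ]
      have e : (J \ I).filter (fun p => A (insert p I)) =
          (J \ I).filter (fun p => B (insert p I)) := by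
        apply filter_congr
        intro p hp
        rw [mem_sdiff] at hp
        exact h _ (subset_insert p I) (insert_subset hp.1 hIJ)
      rw [e]
      apply sum_congr rfl
      intro p _
      exact ih fun H h1 h2 => h H ((subset_insert p I).trans h1) h2
    · rw [pc_eq_zero hIJ, pc_eq_zero hIJ]

lemma pc_add (m₁ m₂ : ℕ) : ∀ I J : Finset ℕ, pc A (m₁ + m₂) I J =
    ∑ H ∈ J.powerset, pc A m₁ I H * pc A m₂ H J := by
  induction m₁ with
  | zero =>
    intro I J
    rw [Nat.zero_add]
    by_cases hIJ : I ⊆ J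
    · rw [sum_eq_single I]
      · rw [pc_zero, if_pos rfl, one_mul]
      · intro H _ hH
        rw [pc_zero, if_neg (Ne.symm hH), zero_mul]
      · intro h
        exact absurd (mem_powerset.2 hIJ) h
    · rw [pc_eq_zero hIJ]
      symm
      apply sum_eq_zero
      intro H hH
      rw [pc_zero, if_neg, zero_mul]
      rintro rfl
      exact hIJ (mem_powerset.1 hH)
  | succ m ih =>
    intro I J
    have e : m + 1 + m₂ = (m + m₂) + 1 := by ring
    rw [e, pc_succ]
    have h1 : ∀ p ∈ (J \ I).filter (fun p => A (insert p I)), pc A (m + m₂) (insert p I) J =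
        ∑ H ∈ J.powerset, pc A m (insert p I) H * pc A m₂ H J := fun p _ => ih _ _
    rw [sum_congr rfl h1, sum_comm]
    apply sum_congr rfl
    intro H hH
    rw [mem_powerset] at hH
    rw [← sum_mul, pc_succ]
    congr 1
    symm
    apply sum_subset
    · intro p hp
      rw [mem_filter, mem_sdiff] at hp ⊢
      exact ⟨⟨hH hp.1.1, hp.1.2⟩, hp.2⟩
    · intro p hp1 hp2
      rw [mem_filter, mem_sdiff] at hp1 hp2
      apply pc_eq_zero
      intro h
      exact hp2 ⟨⟨h (mem_insert_self _ _), hp1.1.2⟩, hp1.2⟩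

/-- the set `{0, …, a - 1} ∪ (a + W)` -/
def T (a : ℕ) (W : Finset ℕ) : Finset ℕ := range a ∪ W.map (addLeftEmbedding a)

lemma mem_T {a : ℕ} {W : Finset ℕ} {i : ℕ} : i ∈ T a W ↔ i < a ∨ ∃ w ∈ W, a + w = i := by
  simp [T]

lemma mem_T_add {a : ℕ} {W : Finset ℕ} {i : ℕ} : a + i ∈ T a W ↔ i ∈ W := by
  rw [mem_T]
  constructor
  · rintro (h | ⟨w, hw, h⟩)
    · omega
    · have : w = i := by omega
      rwa [← this]
  · intro h
    exact Or.inr ⟨i, h, rfl⟩

lemma mem_T_lt {a : ℕ} {W : Finset ℕ} {i : ℕ} (h : i < a) : i ∈ T a W := mem_T.2 (Or.inl h)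

lemma card_T (a : ℕ) (W : Finset ℕ) : (T a W).card = a + W.card := by
  unfold T
  rw [card_union_of_disjoint, card_range, card_map]
  rw [disjoint_left]
  intro i hi h
  rw [mem_range] at hi
  rw [mem_map] at h
  obtain ⟨w, _, h⟩ := h
  simp at h
  omega

lemma T_inj (a : ℕ) : Function.Injective (T a) := by
  intro V W h
  ext i
  rw [← mem_T_add (a := a), h, mem_T_add]

lemma T_subset {a : ℕ} {V W : Finset ℕ} : T a V ⊆ T a W ↔ V ⊆ W := by
  constructor
  · intro h i hi
    exact mem_T_add.1 (h (mem_T_add.2 hi))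
  · intro h i hi
    rcases Nat.lt_or_ge i a with h1 | h1
    · exact mem_T_lt h1
    · obtain ⟨j, rfl⟩ := Nat.exists_eq_add_of_le h1
      exact mem_T_add.2 (h (mem_T_add.1 hi))

lemma insert_T (a p : ℕ) (W : Finset ℕ) : insert (a + p) (T a W) = T a (insert p W) := by
  ext i
  rcases Nat.lt_or_ge i a with h1 | h1
  · exact ⟨fun _ => mem_T_lt h1, fun _ => mem_insert_of_mem (mem_T_lt h1)⟩
  · obtain ⟨j, rfl⟩ := Nat.exists_eq_add_of_le h1
    rw [mem_insert, mem_T_add, mem_T_add, mem_insert]
    constructor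
    · rintro (h | h)
      · exact Or.inl (by omega)
      · exact Or.inr h
    · rintro (h | h)
      · exact Or.inl (by omega)
      · exact Or.inr h

/-- a set containing `{0, …, a - 1}` has the form `T a W` -/
lemma exists_T {a : ℕ} {H : Finset ℕ} (h : range a ⊆ H) : ∃ W, T a W = H := by
  refine ⟨(H.filter (a ≤ ·)).image (· - a), ?_⟩
  ext i
  rcases Nat.lt_or_ge i a with h1 | h1
  · exact ⟨fun _ => h (mem_range.2 h1), fun _ => mem_T_lt h1⟩
  · obtain ⟨j, rfl⟩ := Nat.exists_eq_add_of_le h1
    rw [mem_T_add, mem_image]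
    constructor
    · rintro ⟨k, hk, hk2⟩
      rw [mem_filter] at hk
      have : k = a + j := by omega
      rw [← this]; exact hk.1
    · intro h2
      exact ⟨a + j, mem_filter.2 ⟨h2, by omega⟩, by omega⟩

lemma pc_T (a m : ℕ) : ∀ V W : Finset ℕ, pc A m (T a V) (T a W) =
    pc (fun H => A (T a H)) m V W := by
  induction m with
  | zero =>
    intro V W
    rw [pc_zero, pc_zero]
    by_cases h : V = W
    · rw [if_pos h, if_pos (by rw [h])]
    · rw [if_neg h, if_neg (fun h1 => h (T_inj a h1))]
  | succ m ih =>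
    intro V W
    rw [pc_succ, pc_succ]
    symm
    apply sum_bij (fun p _ => a + p)
    · intro p hp
      rw [mem_filter, mem_sdiff] at hp ⊢
      rw [mem_T_add, mem_T_add, insert_T]
      exact hp
    · intro p _ q _ h
      omega
    · intro q hq
      rw [mem_filter, mem_sdiff] at hq
      have hq1 : a ≤ q := by
        by_contra hc
        exact hq.1.2 (mem_T_lt (by omega))
      obtain ⟨p, rfl⟩ := Nat.exists_eq_add_of_le hq1
      refine ⟨p, ?_, rfl⟩
      rw [mem_filter, mem_sdiff, ← mem_T_add (a := a), ← mem_T_add (a := a) (W := V), ← insert_T]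
      exact hq
    · intro p _
      rw [insert_T, ih]

/-- sums over the subsets of `T a W` all of whose relevant members contain `{0, …, a - 1}` -/
lemma sum_T {M : Type*} [AddCommMonoid M] (a : ℕ) (W : Finset ℕ) (F : Finset ℕ → M)
    (hF : ∀ H ⊆ T a W, ¬ range a ⊆ H → F H = 0) :
    ∑ H ∈ (T a W).powerset, F H = ∑ V ∈ W.powerset, F (T a V) := by
  symm
  rw [← sum_image (f := F) (g := T a) (fun V _ V' _ h => T_inj a h)]
  apply sum_subset
  · intro H hH
    rw [mem_image] at hH
    obtain ⟨V, hV, rfl⟩ := hH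
    rw [mem_powerset] at hV ⊢
    exact T_subset.2 hV
  · intro H hH hH2
    rw [mem_powerset] at hH
    apply hF H hH
    intro h
    apply hH2
    obtain ⟨V, rfl⟩ := exists_T h
    exact mem_image.2 ⟨V, mem_powerset.2 (T_subset.1 hH), rfl⟩

/-- A strict order on the natural numbers, contained in the usual one, such that numbers at distance
at least `b` are comparable. -/
structure Ban (b : ℕ) (r : ℕ → ℕ → Prop) : Prop where
  one : 1 ≤ b
  lt : ∀ i j, r i j → i < j
  tr : ∀ i j k, r i j → r j k → r i k
  bd : ∀ i j, i + b ≤ j → r i j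

/-- the relation seen from `a` -/
def sh (r : ℕ → ℕ → Prop) (a : ℕ) : ℕ → ℕ → Prop := fun i j => r (a + i) (a + j)

lemma Ban.sh {b : ℕ} {r : ℕ → ℕ → Prop} (h : Ban b r) (a : ℕ) : Ban b (sh r a) where
  one := h.one
  lt := fun i j hij => by have := h.lt _ _ hij; omega
  tr := fun i j k h1 h2 => h.tr _ _ _ h1 h2
  bd := fun i j hij => h.bd _ _ (by omega)

/-- lower sets -/
def Low (r : ℕ → ℕ → Prop) (J : Finset ℕ) : Prop := ∀ j ∈ J, ∀ i, r i j → i ∈ J

section Ban

variable {b : ℕ} {r : ℕ → ℕ → Prop} (hr : Ban b r)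

include hr

lemma low_lt {J : Finset ℕ} (hJ : Low r J) {j : ℕ} (hj : j ∈ J) : j < J.card + b := by
  have h1 : range (j + 1 - b) ⊆ J := by
    intro i hi
    rw [mem_range] at hi
    exact hJ j hj i (hr.bd _ _ (by omega))
  have h2 := card_le_card h1
  rw [card_range] at h2
  omega

lemma low_mem {J : Finset ℕ} (hJ : Low r J) {i : ℕ} (hi : i + b ≤ J.card) : i ∈ J := by
  by_contra hc
  have h1 : J ⊆ (range (i + b)).erase i := by
    intro j hj
    rw [mem_erase, mem_range]
    refine ⟨fun h => hc (h ▸ hj), ?_⟩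
    by_contra h
    exact hc (hJ j hj i (hr.bd _ _ (by omega)))
  have h2 := card_le_card h1
  have := hr.one
  rw [card_erase_of_mem (mem_range.2 (by omega)), card_range] at h2
  omega

lemma low_range (s : ℕ) : Low r (range s) := by
  intro j hj i hij
  rw [mem_range] at hj ⊢
  exact (hr.lt _ _ hij).trans hj

lemma low_T {a : ℕ} {W : Finset ℕ} : Low r (T a W) ↔ Low (sh r a) W := by
  constructor
  · intro h j hj i hij
    exact mem_T_add.1 (h (a + j) (mem_T_add.2 hj) (a + i) hij)
  · intro h j hj i hij
    rcases Nat.lt_or_ge i a with h1 | h1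
    · exact mem_T_lt h1
    · obtain ⟨i, rfl⟩ := Nat.exists_eq_add_of_le h1
      have h2 := hr.lt _ _ hij
      obtain ⟨j, rfl⟩ := Nat.exists_eq_add_of_le (show a ≤ j by omega)
      exact mem_T_add.2 (h j (mem_T_add.1 hj) i hij)

lemma pc_le {m : ℕ} : ∀ {I J : Finset ℕ}, Low r I → pc (Low r) m I J ≤ (2 * b) ^ m := by
  induction m with
  | zero =>
    intro I J _
    rw [pc_zero, pow_zero]
    split_ifs <;> omega
  | succ m ih =>
    intro I J hI
    rw [pc_succ]
    calc ∑ p ∈ (J \ I).filter (fun p => Low r (insert p I)), pc (Low r) m (insert p I) J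
        ≤ ∑ p ∈ (J \ I).filter (fun p => Low r (insert p I)), (2 * b) ^ m := by
          apply sum_le_sum
          intro p hp
          rw [mem_filter] at hp
          exact ih hp.2
      _ ≤ (2 * b) * (2 * b) ^ m := by
          rw [sum_const, smul_eq_mul]
          apply Nat.mul_le_mul_right
          have h1 : (J \ I).filter (fun p => Low r (insert p I)) ⊆
              Ico (I.card + 1 - b) (I.card + 1 + b) := by
            intro p hp
            rw [mem_filter, mem_sdiff] at hp
            have h2 := low_lt hr hp.2 (mem_insert_self _ _)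
            rw [card_insert_of_notMem hp.1.2] at h2
            have h3 : ¬ p + b ≤ I.card := fun h => hp.1.2 (low_mem hr hI h)
            rw [mem_Ico]
            omega
          have h4 := card_le_card h1
          rw [Nat.card_Ico] at h4
          omega
      _ = (2 * b) ^ (m + 1) := by rw [pow_succ]; ring

lemma one_le_pc {m : ℕ} : ∀ {I J : Finset ℕ}, Low r I → Low r J → I ⊆ J → J.card = I.card + m →
    1 ≤ pc (Low r) m I J := by
  induction m with
  | zero =>
    intro I J _ _ h1 h2
    rw [pc_zero, if_pos (eq_of_subset_of_card_le h1 (by omega))]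
  | succ m ih =>
    intro I J hI hJ h1 h2
    have h3 : (J \ I).Nonempty := by
      rw [← card_pos, card_sdiff_of_subset h1]
      omega
    obtain ⟨p, hp⟩ : ∃ p, p = (J \ I).min' h3 := ⟨_, rfl⟩
    have hp1 : p ∈ J \ I := hp ▸ min'_mem _ h3
    have hp2 := mem_sdiff.1 hp1
    have hlow : Low r (insert p I) := by
      intro j hj i hij
      rw [mem_insert] at hj ⊢
      rcases hj with rfl | hj
      · by_contra hc
        push Not at hc
        have h4 : i ∈ J \ I := mem_sdiff.2 ⟨hJ j hp2.1 i hij, hc.2⟩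
        have h5 := min'_le _ _ h4
        have h6 := hr.lt _ _ hij
        omega
      · exact Or.inr (hI j hj i hij)
    rw [pc_succ]
    refine le_trans (ih hlow hJ (insert_subset hp2.1 h1) ?_)
      (single_le_sum (f := fun p => pc (Low r) m (insert p I) J) (fun _ _ => Nat.zero_le _)
        (mem_filter.2 ⟨hp1, hlow⟩))
    rw [card_insert_of_notMem hp2.2]
    omega

end Ban

end Pool.Agent.Q141.FR
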