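import Pool.Agent.Q141.FR.Wit

/-! The choice of the window length. -/

set_option autoImplicit false

open Finset

namespace Pool.Agent.Q141.FR

/-- size `A ^ (k + 1)` and error `D ρ ^ k`: a polynomial rate -/
lemma rate (A : ℕ) (hA : 2 ≤ A) {ρ D : ℝ} (hρ : 0 < ρ) (hρ1 : ρ < 1) (hD : 0 < D) :
    ∃ c : ℝ, 0 < c ∧ ∃ n₀ : ℕ, ∀ n : ℕ, n₀ ≤ n → ∃ k : ℕ, A ^ (k + 1) ≤ n ∧
      D * ρ ^ k ≤ (n : ℝ) ^ (-c) := by
  have hA1 : (1 : ℝ) < A := by exact_mod_cast (by omega : 1 < A)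
  have hA0 : (0 : ℝ) < A := by linarith
  have hlA : 0 < Real.log A := Real.log_pos hA1
  have hlρ : Real.log ρ < 0 := Real.log_neg hρ hρ1
  obtain ⟨c, hc⟩ : ∃ c, c = -Real.log ρ / (2 * Real.log A) := ⟨_, rfl⟩
  have hc0 : 0 < c := by rw [hc]; apply div_pos <;> linarith
  -- `A ^ c = ρ ^ (-1/2)`
  obtain ⟨τ, hτ⟩ : ∃ τ, τ = Real.exp (Real.log ρ / 2) := ⟨_, rfl⟩
  have hτ0 : 0 < τ := by rw [hτ]; exact Real.exp_pos _
  have hτ1 : τ < 1 := by rw [hτ, Real.exp_lt_one_iff]; linarith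
  have hAc : (A : ℝ) ^ (-c) = τ := by
    rw [Real.rpow_def_of_pos hA0, hτ, hc]
    congr 1
    field_simp
  have hττ : τ * τ = ρ := by
    rw [hτ, ← Real.exp_add]
    rw [add_halves, Real.exp_log hρ]
  obtain ⟨k₀, hk₀⟩ := exists_pow_lt_of_lt_one (show 0 < τ ^ 2 / D by positivity) hτ1
  refine ⟨c, hc0, A ^ (k₀ + 1), fun n hn => ?_⟩
  have hn0 : n ≠ 0 := by
    have : 0 < A ^ (k₀ + 1) := by positivity
    omega
  have hlog : k₀ + 1 ≤ Nat.log A n := Nat.le_log_of_pow_le (by omega) hn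
  refine ⟨Nat.log A n - 1, ?_, ?_⟩
  · rw [Nat.sub_add_cancel (by omega)]
    exact Nat.pow_log_le_self A hn0
  · obtain ⟨k, hk⟩ : ∃ k, Nat.log A n = k + 1 := ⟨Nat.log A n - 1, by omega⟩
    rw [hk, Nat.add_sub_cancel]
    have h1 : n < A ^ (k + 2) := by
      have := Nat.lt_pow_succ_log_self (b := A) (by omega) n
      rwa [hk] at this
    have h2 : (n : ℝ) ≤ (A : ℝ) ^ (k + 2) := by exact_mod_cast h1.le
    have hn1 : (0 : ℝ) < n := by exact_mod_cast Nat.pos_of_ne_zero hn0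
    have h3 : τ ^ (k + 2) ≤ (n : ℝ) ^ (-c) := by
      calc τ ^ (k + 2) = ((A : ℝ) ^ (k + 2)) ^ (-c) := by
            rw [← hAc, ← Real.rpow_natCast, ← Real.rpow_natCast, ← Real.rpow_mul hA0.le,
              ← Real.rpow_mul hA0.le, mul_comm]
        _ ≤ (n : ℝ) ^ (-c) := Real.rpow_le_rpow_of_nonpos hn1 h2 (by linarith)
    refine le_trans ?_ h3
    have h4 : τ ^ k ≤ τ ^ k₀ := pow_le_pow_of_le_one hτ0.le hτ1.le (by omega)
    have h5 : D * τ ^ k ≤ τ ^ 2 := by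
      have := h4.trans hk₀.le
      rw [le_div_iff₀ hD] at this
      linarith
    calc D * ρ ^ k = (D * τ ^ k) * τ ^ k := by rw [← hττ, mul_pow]; ring
      _ ≤ τ ^ 2 * τ ^ k := by gcongr
      _ = τ ^ (k + 2) := by ring

lemma size_bound {b k n : ℕ} (hb : 1 ≤ b) (h : n ≤ 2 * wl b k + 2 * 2 ^ (wl b k * b)) :
    n + wl b k ≤ (2 ^ (20 * b ^ 2)) ^ (k + 1) := by
  obtain ⟨L, hL⟩ : ∃ L, L = wl b k := ⟨_, rfl⟩
  rw [← hL] at h ⊢
  have h1 : L = 6 * b + 4 * b * (k + 1) := hL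
  have h2 : L ≤ 10 * b * (k + 1) := by
    have : 6 * b ≤ 6 * b * (k + 1) := Nat.le_mul_of_pos_right _ (by omega)
    nlinarith
  have h3 : 6 ≤ L := by omega
  have h4 : ∀ x : ℕ, 4 ≤ x → 3 * x ≤ 2 ^ x := by
    intro x hx
    induction x, hx using Nat.le_induction with
    | base => norm_num
    | succ x hx ih => rw [pow_succ]; omega
  have h5 : 2 ^ L ≤ 2 ^ (L * b) := Nat.pow_le_pow_right (by norm_num) (Nat.le_mul_of_pos_right _ hb)
  have h6 := h4 L (by omega)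
  have h7 : n + L ≤ 2 ^ (L * b + 2) := by
    rw [pow_add]
    omega
  refine h7.trans ?_
  rw [← pow_mul]
  apply Nat.pow_le_pow_right (by norm_num)
  have h8 : L * b ≤ 10 * b * (k + 1) * b := Nat.mul_le_mul_right _ h2
  have h9 : 2 ≤ L * b := by nlinarith
  have h10 : 10 * b * (k + 1) * b + 10 * b * (k + 1) * b = 20 * b ^ 2 * (k + 1) := by ring
  omega

lemma pow4_le {e : ℝ} (h0 : 0 ≤ e) (h1 : e ≤ 1) : (1 + e) ^ 4 ≤ 1 + 15 * e := by
  have : (1 + e) ^ 4 = 1 + 4 * e + 6 * e ^ 2 + 4 * e ^ 3 + e ^ 4 := by ring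
  have a2 : e ^ 2 ≤ e := by nlinarith
  have a3 : e ^ 3 ≤ e := by nlinarith [mul_nonneg h0 h0]
  have a4 : e ^ 4 ≤ e := by nlinarith [mul_nonneg h0 h0, mul_nonneg (mul_nonneg h0 h0) h0]
  linarith

/-- the parameters for a given band width: posets of every size `n ≥ n₀` are large enough for the
window of length `wl b k`, and the error is at most `n ^ (-c)` -/
lemma params {b : ℕ} (hb : 1 ≤ b) : ∃ c : ℝ, 0 < c ∧ ∃ n₀ : ℕ, 1 ≤ n₀ ∧ ∀ n : ℕ, n₀ ≤ n → ∃ k : ℕ,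
    (∀ n' : ℕ, n' ≤ 2 * wl b k + 2 * 2 ^ (wl b k * b) → n' + wl b k ≤ n) ∧
    (∀ δ : ℝ, 0 ≤ δ → δ ≤ 1 → (1 + err b k) ^ 4 * δ ≤ δ + (n : ℝ) ^ (-c)) := by
  obtain ⟨C, hC⟩ : ∃ C : ℝ, C = ((2 * b : ℕ) : ℝ) ^ (2 * b) := ⟨_, rfl⟩
  have hC2 : 2 ≤ C := by
    have h1 : (2 : ℝ) ≤ ((2 * b : ℕ) : ℝ) := by exact_mod_cast (by omega : 2 ≤ 2 * b)
    rw [hC]
    exact h1.trans (le_self_pow₀ (by linarith) (by omega))
  have h1C : 1 / C ≤ 1 / 2 := by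
    apply one_div_le_one_div_of_le <;> linarith
  have h1C0 : 0 < 1 / C := by positivity
  have hA : 2 ≤ 2 ^ (20 * b ^ 2) := by
    calc 2 = 2 ^ 1 := rfl
      _ ≤ _ := Nat.pow_le_pow_right (by norm_num) (by
        have : 1 ≤ b ^ 2 := Nat.one_le_pow _ _ hb
        omega)
  obtain ⟨c, hc, n₀, h⟩ := rate (2 ^ (20 * b ^ 2)) hA (ρ := 1 - 1 / C) (D := 15 * C ^ 2)
    (by linarith) (by linarith) (by positivity)
  refine ⟨c, hc, max n₀ 1, le_max_right _ _, fun n hn => ?_⟩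
  obtain ⟨k, hk1, hk2⟩ := h n ((le_max_left _ _).trans hn)
  refine ⟨k, fun n' hn' => (size_bound hb hn').trans hk1, fun δ hδ0 hδ1 => ?_⟩
  have he := err_nonneg hb k
  have he2 : 15 * err b k ≤ (n : ℝ) ^ (-c) := by
    refine le_trans (le_of_eq ?_) hk2
    unfold err
    rw [← hC]
    ring
  have hn1 : (1 : ℝ) ≤ n := by exact_mod_cast (le_max_right _ _).trans hn
  have hle : (n : ℝ) ^ (-c) ≤ 1 := Real.rpow_le_one_of_one_le_of_nonpos hn1 (by linarith)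
  have h4 := pow4_le he (by linarith)
  calc (1 + err b k) ^ 4 * δ ≤ (1 + 15 * err b k) * δ := by gcongr
    _ = δ + 15 * err b k * δ := by ring
    _ ≤ δ + 15 * err b k * 1 := by gcongr
    _ ≤ _ := by linarith

end Pool.Agent.Q141.FR
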