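import Pool.Agent.Q141.FR.Main
import Pool.Agent.TH447.KS.Upper

/-! The reduction for posets of a given width. -/

set_option autoImplicit false

open Finset
open scoped Classical

namespace Pool.Agent.Q141.FR

open Pool.Agent.H13R3.WB Pool.Agent.H931R3.Bal

theorem main_W {ε : ℝ} (hε : 0 < ε) (hε2 : ε ≤ 1 / 2) : ∃ c : ℝ, 0 < c ∧ ∃ n₀ : ℕ, 1 ≤ n₀ ∧
    ∀ n : ℕ, n₀ ≤ n → ∀ (P : Type) [Fintype P] [PartialOrder P] [Nonempty P],
    balance P < 1 / 2 - ε → ∀ w : ℕ, HasWidth P w →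
    ∃ (Q : Type) (_ : Fintype Q) (_ : PartialOrder Q), Fintype.card Q = n ∧ HasWidth Q w ∧
      balance Q ≤ balance P + (n : ℝ) ^ (-c) := by
  obtain ⟨K, hK⟩ := thin hε hε2
  obtain ⟨b, hb⟩ : ∃ b, b = 2 * K + 2 := ⟨_, rfl⟩
  obtain ⟨c, hc, n₀, h1, h⟩ := params (b := b) (by omega)
  refine ⟨c, hc, n₀, h1, fun n hn P _ _ _ hbal w hw => ?_⟩
  have hK' := hK P hbal
  obtain ⟨f, hf⟩ := (LEn_nonempty (P := P) rfl).some
  obtain ⟨k, hk1, hk2⟩ := h n hn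
  obtain ⟨⟨A, hA, hAc⟩, hle⟩ := hw
  have hne : A.Nonempty := by
    rw [nonempty_iff_ne_empty]
    rintro rfl
    obtain ⟨x⟩ := (inferInstance : Nonempty P)
    have := hle {x} (by simp)
    rw [card_singleton, ← hAc, card_empty] at this
    omega
  obtain ⟨x, hx⟩ := hne
  obtain ⟨R⟩ := exists_red hf hb hK' k x
  have hr : Ban b (rel f (wl b k + 3 * b)) := by rw [hb]; exact ban_rel hf hK' _
  have hs := hk1 R.n R.size
  refine ⟨Pt n, inferInstance, ord R.ban n, card_Pt n, ⟨?_, ?_⟩, ?_⟩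
  · obtain ⟨s, hs1, hs2⟩ := red_anti R hf hr (N := n) (by omega) A hA hx
    exact ⟨s, (anti_pt R.ban s).2 hs1, by rw [hs2, hAc]⟩
  · intro s hs
    obtain ⟨u, hu, hsu⟩ := red_width R hf s ((anti_pt R.ban s).1 hs)
    exact hsu.trans (hle u hu)
  · exact (R.bal n hs).trans (hk2 _ balance_nonneg (by linarith))

/-- the infimum of the balance constants of the posets of width `w` -/
noncomputable def dW (w : ℕ) : ℝ :=
  sInf {d : ℝ | ∃ (P : Type) (_ : Fintype P) (_ : PartialOrder P), HasWidth P w ∧ balance P = d}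

lemma ne_of_width {P : Type} [PartialOrder P] {w : ℕ} (hw : 1 ≤ w) (h : HasWidth P w) :
    Nonempty P := by
  obtain ⟨⟨A, _, hAc⟩, _⟩ := h
  obtain ⟨x, _⟩ := Finset.card_pos.1 (show 0 < A.card by omega)
  exact ⟨x⟩

lemma dW_bdd {w : ℕ} (hw : 1 ≤ w) : BddBelow {d : ℝ | ∃ (P : Type) (_ : Fintype P)
    (_ : PartialOrder P), HasWidth P w ∧ balance P = d} := by
  refine ⟨0, ?_⟩
  rintro d ⟨P, i1, i2, h, rfl⟩
  have := ne_of_width hw h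
  exact balance_nonneg

lemma dW_le {w : ℕ} (hw : 1 ≤ w) (P : Type) [Fintype P] [PartialOrder P] (h : HasWidth P w) :
    dW w ≤ balance P := csInf_le (dW_bdd hw) ⟨P, _, _, h, rfl⟩

lemma dW_lt {w : ℕ} (hw : 1 ≤ w) {t : ℝ} (ht : dW w < t) : ∃ (P : Type) (_ : Fintype P)
    (_ : PartialOrder P), HasWidth P w ∧ balance P < t := by
  obtain ⟨P, i1, i2, _, h, _⟩ := Pool.Agent.TH447.KS.exists_interval w hw
  have hne : {d : ℝ | ∃ (P : Type) (_ : Fintype P) (_ : PartialOrder P), HasWidth P w ∧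
      balance P = d}.Nonempty := ⟨_, P, i1, i2, h, rfl⟩
  obtain ⟨d, ⟨Q, j1, j2, h1, rfl⟩, h2⟩ := exists_lt_of_csInf_lt hne ht
  exact ⟨Q, j1, j2, h1, h2⟩

theorem dW_rate {W : ℕ} (hW : 1 ≤ W) : ∃ c : ℝ, 0 < c ∧ ∃ n₀ : ℕ, 1 ≤ n₀ ∧
    ∀ w : ℕ, 1 ≤ w → w ≤ W → ∀ n : ℕ, n₀ ≤ n →
    ∃ (Q : Type) (_ : Fintype Q) (_ : PartialOrder Q), Fintype.card Q = n ∧ HasWidth Q w ∧
      balance Q ≤ dW w + (n : ℝ) ^ (-c) := by
  have hW1 : (1 : ℝ) ≤ W := by exact_mod_cast hW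
  have hε : (0 : ℝ) < 1 / (24 * W) := by positivity
  have hε2 : (1 : ℝ) / (24 * W) ≤ 1 / 2 := by
    apply one_div_le_one_div_of_le (by norm_num); linarith
  obtain ⟨c, hc, n₀, h1, h⟩ := main_W hε hε2
  refine ⟨c, hc, n₀, h1, fun w hw hwW n hn => ?_⟩
  have hw1 : (1 : ℝ) ≤ w := by exact_mod_cast hw
  have hwW1 : (w : ℝ) ≤ W := by exact_mod_cast hwW
  obtain ⟨P₀, _, _, _, hP₀, hb₀⟩ := Pool.Agent.TH447.KS.exists_interval w hw
  have hlt : (1 : ℝ) / (24 * W) < 1 / (12 * (w : ℝ) - 8) :=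
    one_div_lt_one_div_of_lt (by linarith) (by linarith)
  have hd : dW w < 1 / 2 - 1 / (24 * W) := (dW_le hw P₀ hP₀).trans_lt (by linarith)
  by_contra hcon
  push Not at hcon
  obtain ⟨V, hV⟩ : ∃ V, V = {d : ℝ | ∃ (P : Type) (_ : Fintype P) (_ : PartialOrder P),
    Fintype.card P = n ∧ HasWidth P w ∧ balance P = d} := ⟨_, rfl⟩
  have hVf : V.Finite := by
    refine (finite_vals n).subset ?_
    rw [hV]
    rintro d ⟨P, i1, i2, k1, _, k3⟩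
    exact ⟨P, i1, i2, Fintype.card_pos_iff.1 (by omega), k1, k3⟩
  have appr : ∀ η : ℝ, 0 < η → ∃ d ∈ V, d ≤ dW w + η + (n : ℝ) ^ (-c) := by
    intro η hη
    obtain ⟨P, _, _, hP1, hP2⟩ := dW_lt hw (t := min (dW w + η) (1 / 2 - 1 / (24 * W)))
      (lt_min (by linarith) hd)
    have := ne_of_width hw hP1
    obtain ⟨Q, i1, i2, k1, k2, k3⟩ := h n hn P (hP2.trans_le (min_le_right _ _)) w hP1
    refine ⟨balance Q, by rw [hV]; exact ⟨Q, i1, i2, k1, k2, rfl⟩, ?_⟩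
    have := hP2.le.trans (min_le_left _ _)
    linarith
  have hVn : V.Nonempty := by
    obtain ⟨d, hd, _⟩ := appr 1 one_pos
    exact ⟨d, hd⟩
  obtain ⟨d, hd, hmin⟩ := Set.exists_min_image V id hVf hVn
  have hd' := hd
  rw [hV] at hd'
  obtain ⟨P₁, _, _, k1, k2, k3⟩ := hd'
  have h3 := hcon P₁ _ _ k1 k2
  rw [k3] at h3
  obtain ⟨d', hd1, hd2⟩ := appr ((d - (dW w + (n : ℝ) ^ (-c))) / 2) (by linarith)
  have h4 : d ≤ d' := hmin d' hd1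
  linarith

theorem compare_W {W : ℕ} (hW : 1 ≤ W) : ∃ c : ℝ, 0 < c ∧ ∃ n₀ : ℕ,
    (∀ w : ℕ, 1 ≤ w → w ≤ W → ∀ n : ℕ, n₀ ≤ n →
      ∃ (Q : Type) (_ : Fintype Q) (_ : PartialOrder Q), Fintype.card Q = n ∧ HasWidth Q w ∧
        balance Q ≤ dW w + (n : ℝ) ^ (-c)) ∧
    (∀ w v : ℕ, 1 ≤ w → w ≤ W → 1 ≤ v → v ≤ W →
      (dW w < dW v ↔ ∃ n : ℕ, n₀ ≤ n ∧ ∃ (Q : Type) (_ : Fintype Q) (_ : PartialOrder Q),
        Fintype.card Q = n ∧ HasWidth Q w ∧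
        ∀ (R : Type) [Fintype R] [PartialOrder R], Fintype.card R = n → HasWidth R v →
          balance Q + (n : ℝ) ^ (-c) < balance R)) := by
  obtain ⟨c, hc, n₀, h1, h2⟩ := dW_rate hW
  refine ⟨c, hc, n₀, h2, fun w v hw hwW hv hvW => ?_⟩
  constructor
  · intro hlt
    obtain ⟨n, hn, hn2⟩ := exists_small hc (show 0 < (dW v - dW w) / 2 by linarith) n₀
    obtain ⟨Q, i1, i2, k1, k2, k3⟩ := h2 w hw hwW n hn
    refine ⟨n, hn, Q, i1, i2, k1, k2, fun R _ _ _ hR => ?_⟩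
    have k5 := dW_le hv R hR
    linarith
  · rintro ⟨n, hn, Q, i1, i2, k1, k2, k3⟩
    obtain ⟨R, j1, j2, l1, l2, l3⟩ := h2 v hv hvW n hn
    have k5 := k3 R l1 l2
    have k6 := dW_le hw Q k2
    linarith

end Pool.Agent.Q141.FR
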