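import Pool.Agent.Q141.FR.Path
import Pool.Agent.Q141.FR.Contr

/-! The probability that one element comes before another is almost determined by a window. -/

set_option autoImplicit false

open Finset
open scoped Classical

namespace Pool.Agent.Q141.FR

lemma sum_eq_sum_of_ne {α M : Type*} [AddCommMonoid M] (A B : Finset α) (G : α → M)
    (h : ∀ x, G x ≠ 0 → (x ∈ A ↔ x ∈ B)) : ∑ x ∈ A, G x = ∑ x ∈ B, G x := by
  rw [← sum_filter_ne_zero A, ← sum_filter_ne_zero B]
  congr 1
  ext x
  rw [mem_filter, mem_filter]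
  constructor
  · rintro ⟨h1, h2⟩; exact ⟨(h x h2).1 h1, h2⟩
  · rintro ⟨h1, h2⟩; exact ⟨(h x h2).2 h1, h2⟩

/-- the lower sets with `s` elements -/
noncomputable def lowS (b : ℕ) (r : ℕ → ℕ → Prop) (s : ℕ) : Finset (Finset ℕ) :=
  ((range (s + b)).powerset).filter (fun W => Low r W ∧ W.card = s)

/-- lower sets that contain `x` if they contain `y` -/
def LowXY (r : ℕ → ℕ → Prop) (x y : ℕ) (J : Finset ℕ) : Prop := Low r J ∧ (y ∈ J → x ∈ J)

lemma T_zero (W : Finset ℕ) : T 0 W = W := by
  ext i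
  have := mem_T_add (a := 0) (W := W) (i := i)
  rwa [Nat.zero_add] at this

lemma sh_zero (r : ℕ → ℕ → Prop) : sh r 0 = r := by
  funext i j
  unfold sh
  rw [Nat.zero_add, Nat.zero_add]

lemma T_range (a m : ℕ) : T a (range m) = range (a + m) := by
  ext i
  rcases Nat.lt_or_ge i a with h1 | h1
  · exact ⟨fun _ => mem_range.2 (by omega), fun _ => mem_T_lt h1⟩
  · obtain ⟨j, rfl⟩ := Nat.exists_eq_add_of_le h1
    rw [mem_T_add, mem_range, mem_range]
    omega

lemma low_empty (r : ℕ → ℕ → Prop) : Low r ∅ := by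
  intro j hj
  simp at hj

lemma T_empty (a : ℕ) : T a ∅ = range a := by
  rw [← range_zero, T_range, Nat.add_zero]

section Ban

variable {b : ℕ} {r : ℕ → ℕ → Prop} (hr : Ban b r)

include hr

lemma mem_lowS {s : ℕ} {W : Finset ℕ} : W ∈ lowS b r s ↔ Low r W ∧ W.card = s := by
  unfold lowS
  rw [mem_filter, mem_powerset]
  constructor
  · exact fun h => h.2
  · rintro ⟨h1, h2⟩
    refine ⟨fun j hj => ?_, h1, h2⟩
    rw [mem_range, ← h2]
    exact low_lt hr h1 hj

lemma lowS_nonempty (s : ℕ) : (lowS b r s).Nonempty :=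
  ⟨range s, (mem_lowS hr).2 ⟨low_range hr s, card_range s⟩⟩

lemma kernel_bound {s : ℕ} {V W : Finset ℕ} (hV : V ∈ lowS b r s)
    (hW : W ∈ lowS b r (s + 2 * b)) :
    (1 : ℝ) ≤ (pc (Low r) (2 * b) V W : ℝ) ∧
      (pc (Low r) (2 * b) V W : ℝ) ≤ ((2 * b : ℕ) : ℝ) ^ (2 * b) := by
  rw [mem_lowS hr] at hV hW
  have hsub : V ⊆ W := by
    intro j hj
    have h1 := low_lt hr hV.1 hj
    exact low_mem hr hW.1 (by omega)
  constructor
  · exact_mod_cast one_le_pc hr hV.1 hW.1 hsub (by omega)
  · exact_mod_cast pc_le hr hV.1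

/-- the decomposition at two times -/
lemma split3 {A : Finset ℕ → Prop} (hA : ∀ H, A H → Low r H) (hA0 : A ∅) {a s₁ s₂ N : ℕ}
    (hs : b ≤ s₁) (hs2 : s₁ ≤ s₂) (hN : a + s₂ ≤ N) :
    pc A N ∅ (range N) = ∑ V ∈ lowS b (sh r a) s₁, ∑ W ∈ lowS b (sh r a) s₂,
      pc A (a + s₁) ∅ (T a V) * pc (fun H => A (T a H)) (s₂ - s₁) V W *
        pc A (N - (a + s₂)) (T a W) (range N) := by
  have hρ := hr.sh a
  have eN : range N = T a (range (N - a)) := by rw [T_range]; congr 1; omega
  have step : ∀ V ∈ lowS b (sh r a) s₁, pc A (N - (a + s₁)) (T a V) (range N) =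
      ∑ W ∈ lowS b (sh r a) s₂, pc (fun H => A (T a H)) (s₂ - s₁) V W *
        pc A (N - (a + s₂)) (T a W) (range N) := by
    intro V hV
    rw [mem_lowS hρ] at hV
    have e1 : N - (a + s₁) = (s₂ - s₁) + (N - (a + s₂)) := by omega
    rw [e1, pc_add]
    have e2 : ∑ H ∈ (range N).powerset, pc A (s₂ - s₁) (T a V) H *
        pc A (N - (a + s₂)) H (range N) = ∑ H ∈ (T a (range (N - a))).powerset,
          pc A (s₂ - s₁) (T a V) H * pc A (N - (a + s₂)) H (range N) := by rw [← eN]
    rw [e2, sum_T]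
    · have e3 : ∀ W ∈ (range (N - a)).powerset, pc A (s₂ - s₁) (T a V) (T a W) *
          pc A (N - (a + s₂)) (T a W) (range N) = pc (fun H => A (T a H)) (s₂ - s₁) V W *
          pc A (N - (a + s₂)) (T a W) (range N) := by
        intro W _
        rw [pc_T]
      rw [sum_congr rfl e3]
      apply sum_eq_sum_of_ne
      intro W hW
      have h1 : pc (fun H => A (T a H)) (s₂ - s₁) V W ≠ 0 := left_ne_zero_of_mul hW
      have h2 : pc A (N - (a + s₂)) (T a W) (range N) ≠ 0 := right_ne_zero_of_mul hW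
      have h3 := pc_card h1
      have h4 := pc_sub h2
      rw [eN, T_subset] at h4
      constructor
      · intro _
        rw [mem_lowS hρ]
        refine ⟨?_, by omega⟩
        have h5 : V ⊆ W := pc_sub h1
        rcases Nat.eq_zero_or_pos (s₂ - s₁) with h6 | h6
        · have h7 : V = W := eq_of_subset_of_card_le h5 (by omega)
          rw [← h7]; exact hV.1
        · obtain ⟨k, hk⟩ : ∃ k, s₂ - s₁ = k + 1 := ⟨s₂ - s₁ - 1, by omega⟩
          rw [hk, pc_succ] at h1
          obtain ⟨p, hp1, hp⟩ := exists_ne_zero_of_sum_ne_zero h1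
          rw [mem_filter] at hp1
          exact (low_T hr).1 (hA _ (pc_A (A := fun H => A (T a H)) hp hp1.2))
      · intro _
        exact mem_powerset.2 h4
    · intro H _ hH
      rw [pc_eq_zero, zero_mul]
      intro h
      exact hH fun i hi => h (mem_T_lt (mem_range.1 hi))
  have e1 : N = (a + s₁) + (N - (a + s₁)) := by omega
  have e0 : pc A N ∅ (range N) = pc A ((a + s₁) + (N - (a + s₁))) ∅ (range N) := by
    rw [← e1]
  rw [e0, pc_add]
  have e2 : ∑ H ∈ (range N).powerset, pc A (a + s₁) ∅ H *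
      pc A (N - (a + s₁)) H (range N) = ∑ H ∈ (T a (range (N - a))).powerset,
        pc A (a + s₁) ∅ H * pc A (N - (a + s₁)) H (range N) := by rw [← eN]
  have hlow : ∀ H, pc A (a + s₁) ∅ H ≠ 0 → Low r H ∧ H.card = a + s₁ := by
    intro H h
    have h1 := pc_card h
    rw [card_empty, Nat.zero_add] at h1
    exact ⟨hA _ (pc_A h hA0), h1⟩
  rw [e2, sum_T]
  · have e3 : ∑ V ∈ (range (N - a)).powerset, pc A (a + s₁) ∅ (T a V) *
        pc A (N - (a + s₁)) (T a V) (range N) = ∑ V ∈ lowS b (sh r a) s₁,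
        pc A (a + s₁) ∅ (T a V) * pc A (N - (a + s₁)) (T a V) (range N) := by
      apply sum_eq_sum_of_ne
      intro V hV
      have h1 := left_ne_zero_of_mul hV
      have h2 := right_ne_zero_of_mul hV
      have h3 := hlow _ h1
      have h4 := pc_sub h2
      rw [eN, T_subset] at h4
      rw [card_T] at h3
      constructor
      · intro _
        rw [mem_lowS hρ]
        exact ⟨(low_T hr).1 h3.1, by omega⟩
      · intro _
        exact mem_powerset.2 h4
    rw [e3]
    apply sum_congr rfl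
    intro V hV
    rw [step V hV, mul_sum]
    apply sum_congr rfl
    intro W _
    ring
  · intro H _ hH
    by_contra hc
    have h3 := hlow _ (left_ne_zero_of_mul hc)
    apply hH
    intro i hi
    rw [mem_range] at hi
    exact low_mem hr h3.1 (by omega)

/-- the numbers of initial pieces are determined up to a common factor -/
lemma incoming (a k : ℕ) : ∃ m : ℝ, 0 < m ∧ ∀ V ∈ lowS b (sh r a) (b + 2 * b * (k + 1)),
    m * (pc (Low r) (a + (b + 2 * b * (k + 1))) ∅ (T a V) : ℝ) ≤
      (pc (Low (sh r a)) (b + 2 * b * (k + 1)) ∅ V : ℝ) ∧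
    (pc (Low (sh r a)) (b + 2 * b * (k + 1)) ∅ V : ℝ) ≤
      m * (1 + (((2 * b : ℕ) : ℝ) ^ (2 * b)) ^ 2 * (1 - 1 / ((2 * b : ℕ) : ℝ) ^ (2 * b)) ^ k) *
      (pc (Low r) (a + (b + 2 * b * (k + 1))) ∅ (T a V) : ℝ) := by
  have hρ := hr.sh a
  have hb := hr.one
  have rec1 : ∀ (r' : ℕ → ℕ → Prop) (a' : ℕ) (hr' : Ban b r') (s : ℕ) (_ : b ≤ s) (W : Finset ℕ),
      pc (Low r') (a' + (s + 2 * b)) ∅ (T a' W) = ∑ V ∈ lowS b (sh r' a') s,
        pc (Low r') (a' + s) ∅ (T a' V) * pc (Low (sh r' a')) (2 * b) V W := by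
    intro r' a' hr' s hs W
    have e1 : a' + (s + 2 * b) = (a' + s) + 2 * b := by ring
    rw [e1, pc_add]
    have hlow : ∀ H, pc (Low r') (a' + s) ∅ H ≠ 0 → Low r' H ∧ H.card = a' + s := by
      intro H h
      have h1 := pc_card h
      rw [card_empty, Nat.zero_add] at h1
      exact ⟨pc_A h (low_empty _), h1⟩
    rw [sum_T]
    · have e3 : ∀ V ∈ W.powerset, pc (Low r') (a' + s) ∅ (T a' V) *
          pc (Low r') (2 * b) (T a' V) (T a' W) = pc (Low r') (a' + s) ∅ (T a' V) *
          pc (Low (sh r' a')) (2 * b) V W := by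
        intro V _
        rw [pc_T]
        congr 2
        funext H
        exact propext (low_T hr')
      rw [sum_congr rfl e3]
      apply sum_eq_sum_of_ne
      intro V hV
      have h1 := left_ne_zero_of_mul hV
      have h2 := right_ne_zero_of_mul hV
      have h3 := hlow _ h1
      rw [card_T] at h3
      constructor
      · intro _
        rw [mem_lowS (hr'.sh a')]
        exact ⟨(low_T hr').1 h3.1, by omega⟩
      · intro _
        exact mem_powerset.2 (pc_sub h2)
    · intro H _ hH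
      by_contra hc
      have h3 := hlow _ (left_ne_zero_of_mul hc)
      apply hH
      intro i hi
      rw [mem_range] at hi
      exact low_mem hr' h3.1 (by omega)
  have hC : (1 : ℝ) ≤ ((2 * b : ℕ) : ℝ) ^ (2 * b) := by
    apply one_le_pow₀
    exact_mod_cast (by omega : 1 ≤ 2 * b)
  obtain ⟨m, hm, h⟩ := contract (fun j => lowS b (sh r a) (b + 2 * b * j))
    (fun _ V W => (pc (Low (sh r a)) (2 * b) V W : ℝ))
    (fun j V => (pc (Low r) (a + (b + 2 * b * j)) ∅ (T a V) : ℝ))
    (fun j V => (pc (Low (sh r a)) (b + 2 * b * j) ∅ V : ℝ))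
    (((2 * b : ℕ) : ℝ) ^ (2 * b)) hC (k + 1) (fun j _ => lowS_nonempty hρ _)
    (fun j _ V hV W hW => by
      have e : b + 2 * b * (j + 1) = (b + 2 * b * j) + 2 * b := by ring
      rw [e] at hW
      exact kernel_bound hρ hV hW)
    (fun j _ W _ => by
      have e : b + 2 * b * (j + 1) = (b + 2 * b * j) + 2 * b := by ring
      rw [e]
      exact_mod_cast rec1 r a hr (b + 2 * b * j) (by omega) W)
    (fun j _ W _ => by
      have e : b + 2 * b * (j + 1) = (b + 2 * b * j) + 2 * b := by ring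
      rw [e]
      have h1 := rec1 (sh r a) 0 hρ (b + 2 * b * j) (by omega) W
      simp only [Nat.zero_add, T_zero, sh_zero] at h1
      exact_mod_cast h1)
    (fun V hV => by
      have hV' := (mem_lowS hρ).1 hV
      have h1 := one_le_pc hr (low_empty r) ((low_T hr (a := a)).2 hV'.1) (empty_subset _)
        (m := a + (b + 2 * b * 0)) (by rw [card_T, card_empty]; omega)
      have : 0 < pc (Low r) (a + (b + 2 * b * 0)) ∅ (T a V) := h1
      exact_mod_cast this)
    (fun V hV => by
      have hV' := (mem_lowS hρ).1 hV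
      have h1 := one_le_pc hρ (low_empty _) hV'.1 (empty_subset _)
        (m := (b + 2 * b * 0)) (by rw [card_empty]; omega)
      have : 0 < pc (Low (sh r a)) (b + 2 * b * 0) ∅ V := h1
      exact_mod_cast this)
    k (by omega)
  exact ⟨m, hm, h⟩

end Ban

end Pool.Agent.Q141.FR
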