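import Pool.Agent.Q141.FR.Win

/-! The probability that one element comes before another is almost determined by a window:
final pieces, and the conclusion. -/

set_option autoImplicit false

open Finset
open scoped Classical

namespace Pool.Agent.Q141.FR

/-- the error of one side after `k` steps -/
noncomputable def err (b k : ℕ) : ℝ :=
  (((2 * b : ℕ) : ℝ) ^ (2 * b)) ^ 2 * (1 - 1 / ((2 * b : ℕ) : ℝ) ^ (2 * b)) ^ k

section Ban

variable {b : ℕ} {r : ℕ → ℕ → Prop} (hr : Ban b r)

include hr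

lemma rec2 (a s N : ℕ) (hN : a + s + 2 * b ≤ N) {V : Finset ℕ} (hV : V ∈ lowS b (sh r a) s) :
    pc (Low r) (N - (a + s)) (T a V) (range N) = ∑ W ∈ lowS b (sh r a) (s + 2 * b),
      pc (Low (sh r a)) (2 * b) V W *
        pc (Low r) (N - (a + (s + 2 * b))) (T a W) (range N) := by
  have hρ := hr.sh a
  have eN : range N = T a (range (N - a)) := by rw [T_range]; congr 1; omega
  rw [mem_lowS hρ] at hV
  have e1 : N - (a + s) = 2 * b + (N - (a + (s + 2 * b))) := by omega
  rw [e1, pc_add]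
  have e2 : ∑ H ∈ (range N).powerset, pc (Low r) (2 * b) (T a V) H *
      pc (Low r) (N - (a + (s + 2 * b))) H (range N) = ∑ H ∈ (T a (range (N - a))).powerset,
        pc (Low r) (2 * b) (T a V) H * pc (Low r) (N - (a + (s + 2 * b))) H (range N) := by
    rw [← eN]
  rw [e2, sum_T]
  · have e3 : ∀ W ∈ (range (N - a)).powerset, pc (Low r) (2 * b) (T a V) (T a W) *
        pc (Low r) (N - (a + (s + 2 * b))) (T a W) (range N) =
        pc (Low (sh r a)) (2 * b) V W *
        pc (Low r) (N - (a + (s + 2 * b))) (T a W) (range N) := by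
      intro W _
      rw [pc_T]
      congr 2
      funext H
      exact propext (low_T hr)
    rw [sum_congr rfl e3]
    apply sum_eq_sum_of_ne
    intro W hW
    have h1 := left_ne_zero_of_mul hW
    have h2 := right_ne_zero_of_mul hW
    have h3 := pc_card h1
    have h4 := pc_sub h2
    rw [eN, T_subset] at h4
    constructor
    · intro _
      rw [mem_lowS hρ]
      exact ⟨pc_A h1 hV.1, by omega⟩
    · intro _
      exact mem_powerset.2 h4
  · intro H _ hH
    rw [pc_eq_zero, zero_mul]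
    intro h
    exact hH fun i hi => h (mem_T_lt (mem_range.1 hi))

/-- the numbers of final pieces are determined up to a common factor -/
lemma outgoing (a N L k : ℕ) (hL : b + 2 * b * (k + 1) ≤ L) (hN : a + L ≤ N) :
    ∃ m : ℝ, 0 < m ∧ ∀ W ∈ lowS b (sh r a) (L - b - 2 * b * (k + 1)),
    m * (pc (Low r) (N - (a + (L - b - 2 * b * (k + 1)))) (T a W) (range N) : ℝ) ≤
      (pc (Low (sh r a)) (L - (L - b - 2 * b * (k + 1))) W (range L) : ℝ) ∧
    (pc (Low (sh r a)) (L - (L - b - 2 * b * (k + 1))) W (range L) : ℝ) ≤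
      m * (1 + err b k) *
      (pc (Low r) (N - (a + (L - b - 2 * b * (k + 1)))) (T a W) (range N) : ℝ) := by
  have hρ := hr.sh a
  have hb := hr.one
  have hC : (1 : ℝ) ≤ ((2 * b : ℕ) : ℝ) ^ (2 * b) := by
    apply one_le_pow₀
    exact_mod_cast (by omega : 1 ≤ 2 * b)
  have lev : ∀ j < k + 1, (L - b - 2 * b * (j + 1)) + 2 * b = L - b - 2 * b * j := by
    intro j hj
    have h1 : 2 * b * (j + 1) ≤ 2 * b * (k + 1) := Nat.mul_le_mul_left _ (by omega)
    have h2 : 2 * b * (j + 1) = 2 * b * j + 2 * b := by ring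
    omega
  obtain ⟨m, hm, h⟩ := contract (fun j => lowS b (sh r a) (L - b - 2 * b * j))
    (fun _ W V => (pc (Low (sh r a)) (2 * b) V W : ℝ))
    (fun j W => (pc (Low r) (N - (a + (L - b - 2 * b * j))) (T a W) (range N) : ℝ))
    (fun j W => (pc (Low (sh r a)) (L - (L - b - 2 * b * j)) W (range L) : ℝ))
    (((2 * b : ℕ) : ℝ) ^ (2 * b)) hC (k + 1) (fun j _ => lowS_nonempty hρ _)
    (fun j hj W hW V hV => by
      rw [← lev j hj] at hW
      exact kernel_bound hρ hV hW)
    (fun j hj V hV => by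
      have h1 := rec2 hr a (L - b - 2 * b * (j + 1)) N (by have := lev j hj; omega) hV
      rw [lev j hj] at h1
      rw [h1]
      push_cast
      apply sum_congr rfl
      intro W _
      ring)
    (fun j hj V hV => by
      have hV' : V ∈ lowS b (sh (sh r a) 0) (L - b - 2 * b * (j + 1)) := by
        rw [sh_zero]; exact hV
      have h1 := rec2 hρ 0 (L - b - 2 * b * (j + 1)) L (by have := lev j hj; omega) hV'
      simp only [Nat.zero_add, T_zero, sh_zero] at h1
      rw [lev j hj] at h1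
      rw [h1]
      push_cast
      apply sum_congr rfl
      intro W _
      ring)
    (fun W hW => by
      have hW' := (mem_lowS hρ).1 hW
      have h1 := one_le_pc hr ((low_T hr (a := a)).2 hW'.1) (low_range hr N)
        (m := N - (a + (L - b - 2 * b * 0))) (by
          intro i hi
          rw [mem_range]
          rcases mem_T.1 hi with h | ⟨w, hw, h⟩
          · omega
          · have := low_lt hρ hW'.1 hw
            omega) (by rw [card_T, card_range]; omega)
      have : 0 < pc (Low r) (N - (a + (L - b - 2 * b * 0))) (T a W) (range N) := h1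
      exact_mod_cast this)
    (fun W hW => by
      have hW' := (mem_lowS hρ).1 hW
      have h1 := one_le_pc hρ hW'.1 (low_range hρ L) (m := L - (L - b - 2 * b * 0)) (by
          intro i hi
          rw [mem_range]
          have := low_lt hρ hW'.1 hi
          omega) (by rw [card_range]; omega)
      have : 0 < pc (Low (sh r a)) (L - (L - b - 2 * b * 0)) W (range L) := h1
      exact_mod_cast this)
    k (by omega)
  exact ⟨m, hm, h⟩

/-- the probability that `x` comes before `y` in the order on `{0, …, N - 1}` -/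
noncomputable def pr (r : ℕ → ℕ → Prop) (N x y : ℕ) : ℝ :=
  (pc (LowXY r x y) N ∅ (range N) : ℝ) / pc (Low r) N ∅ (range N)

lemma split_total {a s₁ s₂ N : ℕ} (hs : b ≤ s₁) (hs2 : s₁ ≤ s₂) (hN : a + s₂ ≤ N) :
    (pc (Low r) N ∅ (range N) : ℝ) = ∑ V ∈ lowS b (sh r a) s₁, ∑ W ∈ lowS b (sh r a) s₂,
      (pc (Low r) (a + s₁) ∅ (T a V) : ℝ) * pc (Low (sh r a)) (s₂ - s₁) V W *
        pc (Low r) (N - (a + s₂)) (T a W) (range N) := by
  have h := split3 hr (A := Low r) (fun _ h => h) (low_empty r) hs hs2 hN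
  have e : (fun H => Low r (T a H)) = Low (sh r a) := by
    funext H
    exact propext (low_T hr)
  rw [e] at h
  exact_mod_cast h

lemma split_xy {a s₁ s₂ N x y : ℕ} (hs : b ≤ s₁) (hs2 : s₁ ≤ s₂) (hN : a + s₂ ≤ N)
    (hy : s₁ + b ≤ y) (hx : x + b ≤ s₂) :
    (pc (LowXY r (a + x) (a + y)) N ∅ (range N) : ℝ) =
      ∑ V ∈ lowS b (sh r a) s₁, ∑ W ∈ lowS b (sh r a) s₂,
      (pc (Low r) (a + s₁) ∅ (T a V) : ℝ) * pc (LowXY (sh r a) x y) (s₂ - s₁) V W *
        pc (Low r) (N - (a + s₂)) (T a W) (range N) := by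
  have hρ := hr.sh a
  have h := split3 hr (A := LowXY r (a + x) (a + y)) (fun _ h => h.1)
    ⟨low_empty r, fun h => by simp at h⟩ hs hs2 hN
  have e : (fun H => LowXY r (a + x) (a + y) (T a H)) = LowXY (sh r a) x y := by
    funext H
    apply propext
    unfold LowXY
    rw [low_T hr, mem_T_add, mem_T_add]
  rw [e] at h
  rw [h]
  push_cast
  apply sum_congr rfl
  intro V hV
  apply sum_congr rfl
  intro W hW
  rw [mem_lowS hρ] at hV hW
  have h1 : pc (LowXY r (a + x) (a + y)) (a + s₁) ∅ (T a V) = pc (Low r) (a + s₁) ∅ (T a V) := by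
    apply pc_congr
    intro H _ hH
    constructor
    · exact fun h => h.1
    · intro h
      refine ⟨h, fun hy' => ?_⟩
      have h2 := mem_T_add.1 (hH hy')
      have h3 := low_lt hρ hV.1 h2
      omega
  have h2 : pc (LowXY r (a + x) (a + y)) (N - (a + s₂)) (T a W) (range N) =
      pc (Low r) (N - (a + s₂)) (T a W) (range N) := by
    apply pc_congr
    intro H hH _
    constructor
    · exact fun h => h.1
    · intro h
      refine ⟨h, fun _ => hH (mem_T_add.2 ?_)⟩
      exact low_mem hρ hW.1 (by omega)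
  rw [h1, h2]

/-- **The window lemma.** -/
theorem window (a k N x y : ℕ) (hN : a + (6 * b + 4 * b * (k + 1)) ≤ N)
    (hx : x + b ≤ b + 2 * b * (k + 1) + 4 * b) (hy : b + 2 * b * (k + 1) + b ≤ y) :
    pr (sh r a) (6 * b + 4 * b * (k + 1)) x y ≤ (1 + err b k) ^ 2 * pr r N (a + x) (a + y) ∧
    pr r N (a + x) (a + y) ≤ (1 + err b k) ^ 2 * pr (sh r a) (6 * b + 4 * b * (k + 1)) x y := by
  have hρ := hr.sh a
  have hb := hr.one
  obtain ⟨L, hL⟩ : ∃ L, L = 6 * b + 4 * b * (k + 1) := ⟨_, rfl⟩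
  obtain ⟨s₁, hs1⟩ : ∃ s₁, s₁ = b + 2 * b * (k + 1) := ⟨_, rfl⟩
  obtain ⟨s₂, hs2⟩ : ∃ s₂, s₂ = s₁ + 4 * b := ⟨_, rfl⟩
  have hs2' : L - b - 2 * b * (k + 1) = s₂ := by
    have : 4 * b * (k + 1) = 2 * b * (k + 1) + 2 * b * (k + 1) := by ring
    omega
  have hLs : b + 2 * b * (k + 1) ≤ L := by
    have : 4 * b * (k + 1) = 2 * b * (k + 1) + 2 * b * (k + 1) := by ring
    omega
  rw [← hL] at hN ⊢
  obtain ⟨m, hm, h1⟩ := incoming hr a k
  obtain ⟨m', hm', h2⟩ := outgoing hr a N L k hLs hN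
  rw [← hs1] at h1
  rw [hs2'] at h2
  have hs2L : s₂ ≤ L := by omega
  have tot := split_total hr (a := a) (s₁ := s₁) (s₂ := s₂) (N := N) (by omega) (by omega) (by omega)
  have totxy := split_xy hr (a := a) (s₁ := s₁) (s₂ := s₂) (N := N) (x := x) (y := y)
    (by omega) (by omega) (by omega) (by omega) (by omega)
  have tot' := split_total hρ (a := 0) (s₁ := s₁) (s₂ := s₂) (N := L) (by omega) (by omega)
    (by omega)
  have totxy' := split_xy hρ (a := 0) (s₁ := s₁) (s₂ := s₂) (N := L) (x := x) (y := y)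
    (by omega) (by omega) (by omega) (by omega) (by omega)
  simp only [Nat.zero_add, T_zero, sh_zero] at tot' totxy'
  have herr : 0 ≤ err b k := by
    unfold err
    have hC : (1 : ℝ) ≤ ((2 * b : ℕ) : ℝ) ^ (2 * b) := by
      apply one_le_pow₀
      exact_mod_cast (by omega : 1 ≤ 2 * b)
    have : 0 ≤ 1 - 1 / ((2 * b : ℕ) : ℝ) ^ (2 * b) := by
      rw [sub_nonneg, div_le_one (by linarith)]; exact hC
    positivity
  obtain ⟨E, hE⟩ : ∃ E : ℝ, E = 1 + err b k := ⟨_, rfl⟩
  have hE1 : 1 ≤ E := by linarith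
  have h1' : ∀ V ∈ lowS b (sh r a) s₁, m * (pc (Low r) (a + s₁) ∅ (T a V) : ℝ) ≤
      (pc (Low (sh r a)) s₁ ∅ V : ℝ) ∧ (pc (Low (sh r a)) s₁ ∅ V : ℝ) ≤
      m * E * (pc (Low r) (a + s₁) ∅ (T a V) : ℝ) := by
    rw [hE]; exact h1
  rw [← hE] at h2
  -- comparison of the two functionals
  have comp : ∀ K : Finset ℕ → Finset ℕ → ℕ,
      m * m' * (∑ V ∈ lowS b (sh r a) s₁, ∑ W ∈ lowS b (sh r a) s₂,
        (pc (Low r) (a + s₁) ∅ (T a V) : ℝ) * (K V W : ℝ) *
          pc (Low r) (N - (a + s₂)) (T a W) (range N)) ≤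
      (∑ V ∈ lowS b (sh r a) s₁, ∑ W ∈ lowS b (sh r a) s₂,
        (pc (Low (sh r a)) s₁ ∅ V : ℝ) * (K V W : ℝ) *
          pc (Low (sh r a)) (L - s₂) W (range L)) ∧
      (∑ V ∈ lowS b (sh r a) s₁, ∑ W ∈ lowS b (sh r a) s₂,
        (pc (Low (sh r a)) s₁ ∅ V : ℝ) * (K V W : ℝ) *
          pc (Low (sh r a)) (L - s₂) W (range L)) ≤
      m * m' * E ^ 2 * (∑ V ∈ lowS b (sh r a) s₁, ∑ W ∈ lowS b (sh r a) s₂,
        (pc (Low r) (a + s₁) ∅ (T a V) : ℝ) * (K V W : ℝ) *
          pc (Low r) (N - (a + s₂)) (T a W) (range N)) := by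
    intro K
    constructor
    · rw [mul_sum]
      apply sum_le_sum
      intro V hV
      rw [mul_sum]
      apply sum_le_sum
      intro W hW
      have a1 := (h1' V hV).1
      have a2 := (h2 W hW).1
      calc m * m' * ((pc (Low r) (a + s₁) ∅ (T a V) : ℝ) * (K V W : ℝ) *
            pc (Low r) (N - (a + s₂)) (T a W) (range N))
          = (m * pc (Low r) (a + s₁) ∅ (T a V)) * (K V W : ℝ) *
            (m' * pc (Low r) (N - (a + s₂)) (T a W) (range N)) := by ring
        _ ≤ _ := by gcongr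
    · rw [mul_sum]
      apply sum_le_sum
      intro V hV
      rw [mul_sum]
      apply sum_le_sum
      intro W hW
      have a1 := (h1' V hV).2
      have a2 := (h2 W hW).2
      calc (pc (Low (sh r a)) s₁ ∅ V : ℝ) * (K V W : ℝ) *
            pc (Low (sh r a)) (L - s₂) W (range L)
          ≤ (m * E * pc (Low r) (a + s₁) ∅ (T a V)) * (K V W : ℝ) *
            (m' * E * pc (Low r) (N - (a + s₂)) (T a W) (range N)) := by gcongr
        _ = _ := by ring
  have c1 := comp (fun V W => pc (Low (sh r a)) (s₂ - s₁) V W)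
  have c2 := comp (fun V W => pc (LowXY (sh r a) x y) (s₂ - s₁) V W)
  rw [← tot, ← tot'] at c1
  rw [← totxy, ← totxy'] at c2
  have p1 : (0 : ℝ) < pc (Low r) N ∅ (range N) := by
    have := one_le_pc hr (low_empty r) (low_range hr N) (empty_subset _) (m := N)
      (by rw [card_range, card_empty, Nat.zero_add])
    exact_mod_cast (by omega : 0 < pc (Low r) N ∅ (range N))
  have p2 : (0 : ℝ) < pc (Low (sh r a)) L ∅ (range L) := by
    have := one_le_pc hρ (low_empty _) (low_range hρ L) (empty_subset _) (m := L)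
      (by rw [card_range, card_empty, Nat.zero_add])
    exact_mod_cast (by omega : 0 < pc (Low (sh r a)) L ∅ (range L))
  have hmm : 0 < m * m' := mul_pos hm hm'
  have hu : (0 : ℝ) ≤ (pc (LowXY r (a + x) (a + y)) N ∅ (range N) : ℝ) := Nat.cast_nonneg _
  unfold pr
  rw [← hE]
  generalize (pc (Low r) N ∅ (range N) : ℝ) = e at c1 p1 ⊢
  generalize (pc (Low (sh r a)) L ∅ (range L) : ℝ) = e' at c1 p2 ⊢
  generalize (pc (LowXY r (a + x) (a + y)) N ∅ (range N) : ℝ) = u at c2 hu ⊢
  generalize (pc (LowXY (sh r a) x y) L ∅ (range L) : ℝ) = u' at c2 ⊢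
  constructor
  · rw [← mul_div_assoc, div_le_div_iff₀ p2 p1]
    calc u' * e ≤ (m * m' * E ^ 2 * u) * e := mul_le_mul_of_nonneg_right c2.2 p1.le
      _ = E ^ 2 * u * (m * m' * e) := by ring
      _ ≤ E ^ 2 * u * e' := mul_le_mul_of_nonneg_left c1.1 (by positivity)
  · rw [← mul_div_assoc, div_le_div_iff₀ p1 p2]
    calc u * e' ≤ u * (m * m' * E ^ 2 * e) := mul_le_mul_of_nonneg_left c1.2 hu
      _ = E ^ 2 * e * (m * m' * u) := by ring
      _ ≤ E ^ 2 * e * u' := mul_le_mul_of_nonneg_left c2.1 (by positivity)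
      _ = E ^ 2 * u' * e := by ring

end Ban

end Pool.Agent.Q141.FR
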