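import Pool.Agent.Q141.FR.Core

/-! Witnesses in the reduced order, and its width. -/

set_option autoImplicit false

open Finset
open scoped Classical

namespace Pool.Agent.Q141.FR

open Pool.Agent.H13R3.WB Pool.Agent.H931R3.Bal

variable {P : Type} [Fintype P] [PartialOrder P] {m : ℕ} {f : P ≃ Fin m} {b k : ℕ} {x₀ : P}

lemma wl_ge (b k : ℕ) : 6 * b ≤ wl b k := by unfold wl; omega

lemma red_not_inD (R : Red f b k x₀) (hf : Monotone f) (hr : Ban b (rel f (wl b k + 3 * b)))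
    {y₀ : P} (hinc : Inc (fun x y : P => x < y) x₀ y₀) (hgd : ¬ Gd (fun x y : P => x < y) x₀ y₀)
    {N : ℕ} (hN : R.n ≤ N) : ¬ @InD (Pt N) (ord R.ban N) := by
  intro h
  apply hgd
  have h1 := (lab_inc hf (wl b k + 3 * b)).2 hinc
  have h2 := inc_near hr h1
  have hL := wl_ge b k
  have hb := hr.one
  have hwn := R.wn
  obtain ⟨j, hj⟩ : ∃ j, j + (f x₀ : ℕ) = (f y₀ : ℕ) + 3 * b := ⟨(f y₀ : ℕ) + 3 * b - f x₀, by omega⟩
  have e1 : wl b k + 3 * b + (f x₀ : ℕ) = ((f x₀ : ℕ) + wl b k) + 3 * b := by omega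
  have e2 : wl b k + 3 * b + (f y₀ : ℕ) = ((f x₀ : ℕ) + wl b k) + j := by omega
  rw [← lab_gd hf (wl b k + 3 * b), e1, e2]
  rw [e1, e2] at h1
  apply gd_win hr R.ban R.wit (i := 3 * b) (by omega) (by omega) (by omega)
  have h3 : Inc R.r (R.w + 3 * b) (R.w + j) := (agree_inc R.wit (by omega) (by omega)).2 h1
  have i1 : R.w + 3 * b < N := by omega
  have i2 : R.w + j < N := by omega
  have h4 : Inc R.r (v (mk (R.w + 3 * b) i1)) (v (mk (R.w + j) i2)) := h3
  have h5 := @InD.allGd (Pt N) (ord R.ban N) h _ _ ((pt_inc R.ban).1 h4)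
  exact (pt_gd R.ban R.top hN).2 h5

lemma le_of_inc {P : Type} [PartialOrder P] {x y : P} (h : Inc (fun x y : P => x < y) x y) :
    ¬ x ≤ y := fun h1 => h.2.1 (lt_of_le_of_ne h1 h.1)

lemma red_width (R : Red f b k x₀) (hf : Monotone f) {N : ℕ} (s : Finset (Pt N))
    (hs : ∀ x ∈ s, ∀ y ∈ s, x ≠ y → Inc R.r (v x) (v y)) :
    ∃ u : Finset P, IsAntichain (· ≤ ·) (u : Set P) ∧ s.card ≤ u.card := by
  by_cases hc : s.card ≤ 1
  · exact ⟨{x₀}, by simp, by simpa using hc⟩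
  push Not at hc
  have : Nonempty P := ⟨x₀⟩
  have hne : s.Nonempty := by
    rw [← card_pos]; omega
  obtain ⟨q₀, hq₀, hmin⟩ := exists_min_image s v hne
  obtain ⟨a', ha'⟩ := R.win (v q₀)
  have hL := wl_ge b k
  have near : ∀ q ∈ s, ∃ i, v q = v q₀ + i ∧ i < wl b k := by
    intro q hq
    have h1 := hmin q hq
    have hb := R.ban.one
    refine ⟨v q - v q₀, by omega, ?_⟩
    by_cases h2 : q = q₀
    · subst h2; omega
    · have := inc_near R.ban (hs q hq q₀ hq₀ h2)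
      omega
  have tr : ∀ q ∈ s, ∀ q' ∈ s, q ≠ q' → Inc (rel f (wl b k + 3 * b)) (a' + (v q - v q₀))
      (a' + (v q' - v q₀)) := by
    intro q hq q' hq' hqq
    obtain ⟨i, hi, hi2⟩ := near q hq
    obtain ⟨i', hi', hi2'⟩ := near q' hq'
    have e1 : v q - v q₀ = i := by omega
    have e2 : v q' - v q₀ = i' := by omega
    rw [e1, e2]
    apply (agree_inc ha' hi2 hi2').1
    rw [← hi, ← hi']
    exact hs q hq q' hq' hqq
  have ex : ∀ q ∈ s, ∃ p : P, (wl b k + 3 * b) + (f p : ℕ) = a' + (v q - v q₀) := by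
    intro q hq
    obtain ⟨q', hq', hne'⟩ := exists_mem_ne hc q
    exact lab_range f _ _ _ (tr q hq q' hq' hne'.symm)
  choose! g hg using ex
  have inj : Set.InjOn g s := by
    intro q hq q' hq' h
    have h1 := hg q hq
    have h2 := hg q' hq'
    rw [h] at h1
    obtain ⟨i, hi, _⟩ := near q hq
    obtain ⟨i', hi', _⟩ := near q' hq'
    exact v_inj (by omega)
  refine ⟨s.image g, ?_, (card_image_of_injOn inj).ge⟩
  intro x hx y hy hxy
  rw [mem_coe, mem_image] at hx hy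
  obtain ⟨q, hq, rfl⟩ := hx
  obtain ⟨q', hq', rfl⟩ := hy
  have hqq : q ≠ q' := fun h => hxy (by rw [h])
  have h1 := tr q hq q' hq' hqq
  rw [← hg q hq, ← hg q' hq', lab_inc hf] at h1
  exact le_of_inc h1

lemma red_anti (R : Red f b k x₀) (hf : Monotone f) (hr : Ban b (rel f (wl b k + 3 * b)))
    {N : ℕ} (hN : R.n ≤ N) (A : Finset P) (hA : IsAntichain (· ≤ ·) (A : Set P)) (hx : x₀ ∈ A) :
    ∃ s : Finset (Pt N), (∀ x ∈ s, ∀ y ∈ s, x ≠ y → Inc R.r (v x) (v y)) ∧ s.card = A.card := by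
  have hL := wl_ge b k
  have hb := hr.one
  have hwn := R.wn
  have incA : ∀ u ∈ A, ∀ u' ∈ A, u ≠ u' → Inc (fun x y : P => x < y) u u' := by
    intro u hu u' hu' hne
    exact ⟨hne, fun h => hA hu hu' hne h.le, fun h => hA hu' hu hne.symm h.le⟩
  have near : ∀ u ∈ A, ∃ j, j + (f x₀ : ℕ) = (f u : ℕ) + 3 * b ∧ j < wl b k := by
    intro u hu
    by_cases h1 : u = x₀
    · exact ⟨3 * b, by rw [h1]; omega, by omega⟩
    · have := inc_near hr ((lab_inc hf (wl b k + 3 * b)).2 (incA u hu x₀ hx h1))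
      exact ⟨(f u : ℕ) + 3 * b - f x₀, by omega, by omega⟩
  have ex : ∀ u ∈ A, ∃ q : Pt N, v q + (f x₀ : ℕ) = R.w + ((f u : ℕ) + 3 * b) := by
    intro u hu
    obtain ⟨j, hj, hj2⟩ := near u hu
    exact ⟨mk (R.w + j) (by omega), by rw [v_mk]; omega⟩
  have : Nonempty (Pt N) := ⟨mk R.w (by omega)⟩
  choose! g hg using ex
  have inj : Set.InjOn g A := by
    intro u hu u' hu' h
    have h1 := hg u hu
    have h2 := hg u' hu'
    rw [h] at h1
    exact f.injective (Fin.ext (by omega))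
  refine ⟨A.image g, ?_, card_image_of_injOn inj⟩
  intro x hx' y hy hxy
  rw [mem_image] at hx' hy
  obtain ⟨u, hu, rfl⟩ := hx'
  obtain ⟨u', hu', rfl⟩ := hy
  have huu : u ≠ u' := fun h => hxy (by rw [h])
  obtain ⟨j, hj, hj2⟩ := near u hu
  obtain ⟨j', hj', hj2'⟩ := near u' hu'
  have e1 : v (g u) = R.w + j := by have := hg u hu; omega
  have e2 : v (g u') = R.w + j' := by have := hg u' hu'; omega
  rw [e1, e2]
  apply (agree_inc R.wit hj2 hj2').2
  have h1 := (lab_inc hf (wl b k + 3 * b)).2 (incA u hu u' hu' huu)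
  have e3 : wl b k + 3 * b + (f u : ℕ) = ((f x₀ : ℕ) + wl b k) + j := by omega
  have e4 : wl b k + 3 * b + (f u' : ℕ) = ((f x₀ : ℕ) + wl b k) + j' := by omega
  rw [e3, e4] at h1
  exact h1

/-- antichains of `Pt N` -/
lemma anti_pt {b N : ℕ} {r : ℕ → ℕ → Prop} (h : Ban b r) (s : Finset (Pt N)) :
    @IsAntichain (Pt N) (@LE.le _ (ord h N).toLE) (s : Set (Pt N)) ↔
      ∀ x ∈ s, ∀ y ∈ s, x ≠ y → Inc r (v x) (v y) := by
  constructor
  · intro hs x hx y hy hxy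
    have h1 : ¬ (x = y ∨ r (v x) (v y)) := hs hx hy hxy
    have h2 : ¬ (y = x ∨ r (v y) (v x)) := hs hy hx hxy.symm
    exact ⟨fun h => hxy (v_inj h), fun h => h1 (Or.inr h), fun h => h2 (Or.inr h)⟩
  · intro hs x hx y hy hxy hle
    have h1 : x = y ∨ r (v x) (v y) := hle
    rcases h1 with h1 | h1
    · exact hxy h1
    · exact (hs x hx y hy hxy).2.1 h1

end Pool.Agent.Q141.FR
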